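import Mathlib

set_option autoImplicit false

namespace Pool.Agent.H559R12

/-- TASK ARI. -/
theorem arith (m h k E D : ℕ) (hh : 1 ≤ h) (hk : 1 ≤ k) (hD : h ^ 2 ≤ 2 * (4 ^ k * D))
    (hD2 : D ≤ h ^ 2)
    (hc : (2 * h ^ 2) ^ m ≤ 2 * ((E + 1) ^ (36 * k ^ 2 + 1) * (2 * h ^ 2 - D) ^ m)) :
    m ≤ 152 * (4 ^ k * k ^ 2 * (Nat.log 2 E + 1)) := by
  set l := Nat.log 2 E + 1 with hl
  have hE : E + 1 ≤ 2 ^ l := Nat.lt_pow_succ_log_self (by norm_num) E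
  have hh0 : (0 : ℝ) < (h : ℝ) ^ 2 := by positivity
  have h4 : (0 : ℝ) < (4 : ℝ) ^ k := by positivity
  have hcR : (2 * (h : ℝ) ^ 2) ^ m ≤
      2 * (((E : ℝ) + 1) ^ (36 * k ^ 2 + 1) * (2 * (h : ℝ) ^ 2 - D) ^ m) := by
    have hsub : ((2 * h ^ 2 - D : ℕ) : ℝ) = 2 * (h : ℝ) ^ 2 - D := by
      rw [Nat.cast_sub (by omega)]
      push_cast
      ring
    have : ((2 * h ^ 2 : ℕ) : ℝ) ^ m ≤
        2 * (((E + 1 : ℕ) : ℝ) ^ (36 * k ^ 2 + 1) * ((2 * h ^ 2 - D : ℕ) : ℝ) ^ m) := by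
      exact_mod_cast hc
    rw [hsub] at this
    push_cast at this
    exact this
  have hDR : (h : ℝ) ^ 2 ≤ 2 * ((4 : ℝ) ^ k * D) := by exact_mod_cast hD
  have hD2R : (D : ℝ) ≤ (h : ℝ) ^ 2 := by exact_mod_cast hD2
  -- factor
  have hfac : (2 * (h : ℝ) ^ 2 - D) ≤ 2 * (h : ℝ) ^ 2 * Real.exp (-(1 / (4 * 4 ^ k))) := by
    have h1 : 1 - 1 / (4 * (4 : ℝ) ^ k) ≤ Real.exp (-(1 / (4 * 4 ^ k))) := by
      have := Real.add_one_le_exp (-(1 / (4 * (4 : ℝ) ^ k)))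
      linarith
    have h2 : (2 * (h : ℝ) ^ 2 - D) ≤ 2 * (h : ℝ) ^ 2 * (1 - 1 / (4 * (4 : ℝ) ^ k)) := by
      have h3 : 2 * (h : ℝ) ^ 2 * (1 / (4 * (4 : ℝ) ^ k)) ≤ D := by
        rw [mul_one_div, div_le_iff₀ (by positivity)]
        nlinarith
      nlinarith
    exact h2.trans (mul_le_mul_of_nonneg_left h1 (by positivity))
  have hnn : 0 ≤ 2 * (h : ℝ) ^ 2 - D := by nlinarith
  have hpow : (2 * (h : ℝ) ^ 2 - D) ^ m ≤
      (2 * (h : ℝ) ^ 2) ^ m * Real.exp (-(m * (1 / (4 * 4 ^ k)))) := by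
    calc (2 * (h : ℝ) ^ 2 - D) ^ m ≤ (2 * (h : ℝ) ^ 2 * Real.exp (-(1 / (4 * 4 ^ k)))) ^ m :=
          pow_le_pow_left₀ hnn hfac m
      _ = (2 * (h : ℝ) ^ 2) ^ m * Real.exp (-(m * (1 / (4 * 4 ^ k)))) := by
          rw [mul_pow, ← Real.exp_nat_mul]
          ring_nf
  have hER : ((E : ℝ) + 1) ^ (36 * k ^ 2 + 1) ≤ Real.exp (l * (36 * k ^ 2 + 1)) := by
    have h1 : (E : ℝ) + 1 ≤ 2 ^ l := by exact_mod_cast hE
    have h2 : (2 : ℝ) ≤ Real.exp 1 := by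
      have := Real.add_one_le_exp (1 : ℝ)
      linarith
    have h3 : (E : ℝ) + 1 ≤ Real.exp l := by
      calc (E : ℝ) + 1 ≤ 2 ^ l := h1
        _ ≤ (Real.exp 1) ^ l := pow_le_pow_left₀ (by norm_num) h2 l
        _ = Real.exp l := by rw [← Real.exp_nat_mul]; ring_nf
    calc ((E : ℝ) + 1) ^ (36 * k ^ 2 + 1) ≤ (Real.exp l) ^ (36 * k ^ 2 + 1) :=
          pow_le_pow_left₀ (by positivity) h3 _
      _ = Real.exp (l * (36 * k ^ 2 + 1)) := by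
          rw [← Real.exp_nat_mul]
          push_cast
          ring_nf
  have h2e : (2 : ℝ) ≤ Real.exp 1 := by
    have := Real.add_one_le_exp (1 : ℝ)
    linarith
  have hA : 0 < (2 * (h : ℝ) ^ 2) ^ m := by positivity
  have hfin : 1 ≤ Real.exp (1 + l * (36 * k ^ 2 + 1) - m * (1 / (4 * 4 ^ k))) := by
    have h1 : (2 * (h : ℝ) ^ 2) ^ m ≤ Real.exp 1 * (Real.exp (l * (36 * k ^ 2 + 1)) *
        ((2 * (h : ℝ) ^ 2) ^ m * Real.exp (-(m * (1 / (4 * 4 ^ k)))))) := by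
      refine hcR.trans ?_
      have h0 : 0 ≤ (2 * (h : ℝ) ^ 2 - D) ^ m := pow_nonneg hnn m
      have hb : ((E : ℝ) + 1) ^ (36 * k ^ 2 + 1) * (2 * (h : ℝ) ^ 2 - D) ^ m ≤
          Real.exp (l * (36 * k ^ 2 + 1)) *
          ((2 * (h : ℝ) ^ 2) ^ m * Real.exp (-(m * (1 / (4 * 4 ^ k))))) :=
        mul_le_mul hER hpow h0 (Real.exp_pos _).le
      exact mul_le_mul h2e hb (by positivity) (Real.exp_pos _).le
    have h2 : Real.exp (1 + l * (36 * k ^ 2 + 1) - m * (1 / (4 * 4 ^ k))) =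
        Real.exp 1 * (Real.exp (l * (36 * k ^ 2 + 1)) * Real.exp (-(m * (1 / (4 * 4 ^ k))))) := by
      rw [← Real.exp_add, ← Real.exp_add]
      ring_nf
    rw [h2]
    have h3 : (2 * (h : ℝ) ^ 2) ^ m * 1 ≤ (2 * (h : ℝ) ^ 2) ^ m *
        (Real.exp 1 * (Real.exp (l * (36 * k ^ 2 + 1)) * Real.exp (-(m * (1 / (4 * 4 ^ k)))))) := by
      calc (2 * (h : ℝ) ^ 2) ^ m * 1 = (2 * (h : ℝ) ^ 2) ^ m := mul_one _
        _ ≤ _ := h1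
        _ = _ := by ring
    exact le_of_mul_le_mul_left h3 hA
  have hexp : 0 ≤ 1 + l * (36 * (k : ℝ) ^ 2 + 1) - m * (1 / (4 * 4 ^ k)) := by
    by_contra hcon
    push Not at hcon
    have := Real.exp_lt_exp.2 hcon
    rw [Real.exp_zero] at this
    linarith
  have hmR : (m : ℝ) ≤ 4 * 4 ^ k * (1 + l * (36 * (k : ℝ) ^ 2 + 1)) := by
    have h1 : (m : ℝ) * (1 / (4 * 4 ^ k)) ≤ 1 + l * (36 * (k : ℝ) ^ 2 + 1) := by linarith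
    rw [mul_one_div, div_le_iff₀ (by positivity)] at h1
    linarith
  have hmN : m ≤ 4 * 4 ^ k * (1 + l * (36 * k ^ 2 + 1)) := by exact_mod_cast hmR
  have hl1 : 1 ≤ l := by omega
  have hk2 : 1 ≤ k ^ 2 := Nat.one_le_pow _ _ hk
  have h5 : 1 + l * (36 * k ^ 2 + 1) ≤ l * (38 * k ^ 2) := by nlinarith
  calc m ≤ 4 * 4 ^ k * (1 + l * (36 * k ^ 2 + 1)) := hmN
    _ ≤ 4 * 4 ^ k * (l * (38 * k ^ 2)) := Nat.mul_le_mul_left _ h5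
    _ = 152 * (4 ^ k * k ^ 2 * l) := by ring

end Pool.Agent.H559R12
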