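import Mathlib

set_option autoImplicit false

namespace Pool.Agent.H559R12

open Finset

/-- the number of sides compatible with a pair of disjoint sets of indices -/
theorem avg_sides {r k : ℕ} (J J' : Finset (Fin r)) (hJ : J.card ≤ k) (hJ' : J'.card ≤ k)
    (hd : Disjoint J J') :
    2 ^ r ≤ 4 ^ k * (univ.filter (fun side : Fin r → Bool =>
      (∀ j ∈ J, side j = true) ∧ (∀ j ∈ J', side j = false))).card := by
  classical
  set G : Finset (Fin r → Bool) := univ.filter (fun side : Fin r → Bool =>
      (∀ j ∈ J, side j = true) ∧ (∀ j ∈ J', side j = false)) with hG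
  have h1 : (univ : Finset (Fin r → Bool)).card ≤
      (G ×ˢ (J.powerset ×ˢ J'.powerset)).card := by
    refine Finset.card_le_card_of_injOn (fun side : Fin r → Bool =>
      ((fun j => if j ∈ J then true else if j ∈ J' then false else side j),
        (J.filter (fun j => side j = true), J'.filter (fun j => side j = true)))) ?_ ?_
    · intro side _
      simp only [coe_product, Set.mem_prod, Finset.mem_coe, mem_powerset, hG, mem_filter,
        mem_univ, true_and]
      refine ⟨⟨fun j hj => by simp [hj], fun j hj => ?_⟩, filter_subset _ _, filter_subset _ _⟩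
      have : j ∉ J := fun h => Finset.disjoint_left.1 hd h hj
      simp [this, hj]
    · intro side _ side' _ heq
      simp only [Prod.mk.injEq] at heq
      obtain ⟨h0, h1, h2⟩ := heq
      funext j
      by_cases hj : j ∈ J
      · have := Finset.ext_iff.1 h1 j
        simp only [mem_filter, hj, true_and] at this
        exact Bool.eq_iff_iff.2 this
      · by_cases hj' : j ∈ J'
        · have := Finset.ext_iff.1 h2 j
          simp only [mem_filter, hj', true_and] at this
          exact Bool.eq_iff_iff.2 this
        · have := congrFun h0 j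
          simpa [hj, hj'] using this
  have h2 : (univ : Finset (Fin r → Bool)).card = 2 ^ r := by simp
  rw [h2, card_product, card_product, card_powerset, card_powerset] at h1
  have h3 : 2 ^ J.card * 2 ^ J'.card ≤ 4 ^ k := by
    calc 2 ^ J.card * 2 ^ J'.card ≤ 2 ^ k * 2 ^ k :=
          Nat.mul_le_mul (Nat.pow_le_pow_right (by norm_num) hJ)
            (Nat.pow_le_pow_right (by norm_num) hJ')
      _ = 4 ^ k := by rw [← mul_pow]; norm_num
  calc 2 ^ r ≤ G.card * (2 ^ J.card * 2 ^ J'.card) := h1
    _ ≤ G.card * 4 ^ k := Nat.mul_le_mul_left _ h3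
    _ = 4 ^ k * G.card := mul_comm _ _

/-- few pairs have a common index -/
theorem avg_pairs {n r k s h : ℕ} (S : Fin r → Finset (Fin n)) (hs : ∀ j, (S j).card ≤ s)
    (hk : ∀ i, (univ.filter (fun j => i ∈ S j)).card ≤ k) (X Y : Fin h → Fin n)
    (hX : Function.Injective X) (hY : Function.Injective Y) :
    (univ.filter (fun q : Fin h × Fin h => ∃ j, X q.1 ∈ S j ∧ Y q.2 ∈ S j)).card
      ≤ s * (k * n) := by
  classical
  have h1 : (univ.filter (fun q : Fin h × Fin h => ∃ j, X q.1 ∈ S j ∧ Y q.2 ∈ S j)) ⊆
      univ.biUnion (fun j : Fin r => (univ.filter (fun x : Fin h => X x ∈ S j)) ×ˢ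
        (univ.filter (fun y : Fin h => Y y ∈ S j))) := by
    intro q hq
    simp only [mem_filter, mem_univ, true_and] at hq
    obtain ⟨j, hj1, hj2⟩ := hq
    simp only [mem_biUnion, mem_univ, true_and, mem_product, mem_filter]
    exact ⟨j, hj1, hj2⟩
  have h2 : ∀ (Z : Fin h → Fin n), Function.Injective Z → ∀ j,
      (univ.filter (fun x : Fin h => Z x ∈ S j)).card ≤ (S j).card := by
    intro Z hZ j
    refine Finset.card_le_card_of_injOn Z ?_ (hZ.injOn)
    intro x hx
    simpa using hx
  calc _ ≤ _ := card_le_card h1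
    _ ≤ ∑ j : Fin r, ((univ.filter (fun x : Fin h => X x ∈ S j)) ×ˢ
        (univ.filter (fun y : Fin h => Y y ∈ S j))).card := card_biUnion_le
    _ ≤ ∑ j : Fin r, s * (S j).card := by
        refine sum_le_sum fun j _ => ?_
        rw [card_product]
        exact Nat.mul_le_mul ((h2 X hX j).trans (hs j)) (h2 Y hY j)
    _ = s * ∑ j : Fin r, (S j).card := by rw [mul_sum]
    _ = s * ∑ i : Fin n, (univ.filter (fun j => i ∈ S j)).card := by
        congr 1
        have : ∀ j, (S j).card = ∑ i : Fin n, if i ∈ S j then 1 else 0 := by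
          intro j
          rw [← card_filter]
          congr 1
          ext i
          simp
        simp_rw [this, card_filter]
        exact sum_comm
    _ ≤ s * ∑ _i : Fin n, k := Nat.mul_le_mul_left _ (sum_le_sum fun i _ => hk i)
    _ = s * (k * n) := by simp [mul_comm]

/-- TASK AVG. -/
theorem exists_side {n r k s h : ℕ} (S : Fin r → Finset (Fin n)) (hs : ∀ j, (S j).card ≤ s)
    (hk : ∀ i, (univ.filter (fun j => i ∈ S j)).card ≤ k) (X Y : Fin h → Fin n)
    (hX : Function.Injective X) (hY : Function.Injective Y) :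
    ∃ side : Fin r → Bool, h ^ 2 ≤ s * (k * n) + 4 ^ k *
      ((univ.filter (fun x : Fin h => ∀ j, X x ∈ S j → side j = true)).card *
        (univ.filter (fun y : Fin h => ∀ j, Y y ∈ S j → side j = false)).card) := by
  classical
  by_contra hcon
  push Not at hcon
  set F : (Fin r → Bool) → ℕ := fun side =>
    (univ.filter (fun x : Fin h => ∀ j, X x ∈ S j → side j = true)).card *
        (univ.filter (fun y : Fin h => ∀ j, Y y ∈ S j → side j = false)).card with hF
  -- double counting
  have hdc : ∑ side : Fin r → Bool, F side = ∑ q : Fin h × Fin h,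
      (univ.filter (fun side : Fin r → Bool => (∀ j, X q.1 ∈ S j → side j = true) ∧
        (∀ j, Y q.2 ∈ S j → side j = false))).card := by
    have e1 : ∀ side : Fin r → Bool, F side = ∑ q : Fin h × Fin h,
        if ((∀ j, X q.1 ∈ S j → side j = true) ∧ (∀ j, Y q.2 ∈ S j → side j = false))
          then 1 else 0 := by
      intro side
      rw [← card_filter, hF]
      simp only
      rw [← card_product]
      congr 1
      ext q
      simp
    simp_rw [e1, card_filter]
    exact sum_comm
  have hsum : 2 ^ r * h ^ 2 ≤ 2 ^ r * (s * (k * n)) + 4 ^ k * ∑ side : Fin r → Bool, F side := by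
    have hsplit : h ^ 2 =
        (univ.filter (fun q : Fin h × Fin h => ∃ j, X q.1 ∈ S j ∧ Y q.2 ∈ S j)).card +
        (univ.filter (fun q : Fin h × Fin h => ¬ ∃ j, X q.1 ∈ S j ∧ Y q.2 ∈ S j)).card := by
      rw [Finset.card_filter_add_card_filter_not]
      simp [sq]
    have hdis : 2 ^ r *
        (univ.filter (fun q : Fin h × Fin h => ¬ ∃ j, X q.1 ∈ S j ∧ Y q.2 ∈ S j)).card ≤
        4 ^ k * ∑ side : Fin r → Bool, F side := by
      rw [hdc, mul_sum, card_eq_sum_ones, mul_sum, mul_one]
      calc _ ≤ ∑ q ∈ univ.filter (fun q : Fin h × Fin h => ¬ ∃ j, X q.1 ∈ S j ∧ Y q.2 ∈ S j),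
            4 ^ k * (univ.filter (fun side : Fin r → Bool =>
              (∀ j, X q.1 ∈ S j → side j = true) ∧
                (∀ j, Y q.2 ∈ S j → side j = false))).card := by
            refine sum_le_sum fun q hq => ?_
            simp only [mem_filter, mem_univ, true_and] at hq
            have hd : Disjoint (univ.filter (fun j => X q.1 ∈ S j))
                (univ.filter (fun j => Y q.2 ∈ S j)) := by
              rw [Finset.disjoint_left]
              intro j h1 h2
              simp only [mem_filter, mem_univ, true_and] at h1 h2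
              exact hq ⟨j, h1, h2⟩
            have := avg_sides _ _ (hk (X q.1)) (hk (Y q.2)) hd
            simpa using this
        _ ≤ _ := sum_le_sum_of_subset (filter_subset _ _)
    calc 2 ^ r * h ^ 2 = 2 ^ r * (univ.filter
          (fun q : Fin h × Fin h => ∃ j, X q.1 ∈ S j ∧ Y q.2 ∈ S j)).card + 2 ^ r *
        (univ.filter (fun q : Fin h × Fin h => ¬ ∃ j, X q.1 ∈ S j ∧ Y q.2 ∈ S j)).card := by
          conv_lhs => rw [hsplit]
          ring
      _ ≤ _ := Nat.add_le_add (Nat.mul_le_mul_left _ (avg_pairs S hs hk X Y hX hY)) hdis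
  have hlt : ∑ side : Fin r → Bool, (s * (k * n) + 4 ^ k * F side) <
      ∑ _side : Fin r → Bool, h ^ 2 := by
    refine sum_lt_sum_of_nonempty ⟨fun _ => true, mem_univ _⟩ fun side _ => ?_
    exact hcon side
  have e2 : ∑ side : Fin r → Bool, (s * (k * n) + 4 ^ k * F side) =
      2 ^ r * (s * (k * n)) + 4 ^ k * ∑ side : Fin r → Bool, F side := by
    rw [sum_add_distrib, mul_sum]
    simp
  have e3 : ∑ _side : Fin r → Bool, h ^ 2 = 2 ^ r * h ^ 2 := by simp
  rw [e2, e3] at hlt
  omega

end Pool.Agent.H559R12
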