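import Pool.Agent.H559R12.Defs

set_option autoImplicit false

namespace Pool.Agent.H559R12

open Finset

theorem count2 {Ω : Type} [Fintype Ω] {h : ℕ} (upd : Ω → Fin h → Ω) (val : Ω → Fin h)
    (h1 : ∀ ω y, upd (upd ω y) (val ω) = ω) (h3 : ∀ ω y, val (upd ω y) = y) (Q : Ω → Prop)
    [DecidablePred Q]
    (h2 : ∀ ω, (univ.filter (fun x => Q (upd ω x))).card ≤ 2) :
    (univ.filter Q).card * h ≤ 2 * Fintype.card Ω := by
  have e1 : (univ.filter Q).card * h = ((univ.filter Q) ×ˢ (univ : Finset (Fin h))).card := by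
    simp
  rw [e1]
  have e2 : ((univ.filter Q) ×ˢ (univ : Finset (Fin h))).card ≤
      ((univ : Finset Ω).sigma (fun ω => univ.filter (fun x => Q (upd ω x)))).card := by
    apply Finset.card_le_card_of_injOn (fun z => (⟨upd z.1 z.2, val z.1⟩ : (_ : Ω) × Fin h))
    · rintro ⟨ω, y⟩ hz
      simp only [Finset.coe_product, Set.mem_prod, Finset.mem_coe, mem_filter, mem_univ,
        true_and, and_true] at hz
      simp only [Finset.mem_coe, mem_sigma, mem_univ, mem_filter, true_and]
      rw [h1]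
      exact hz
    · rintro ⟨ω, y⟩ _ ⟨ω', y'⟩ _ heq
      simp only [Sigma.mk.injEq, heq_eq_eq] at heq
      obtain ⟨ha, hb⟩ := heq
      have hω : ω = ω' := by rw [← h1 ω y, ha, hb, h1]
      have hy : y = y' := by rw [← h3 ω y, ha, h3]
      rw [hω, hy]
  refine e2.trans ?_
  rw [Finset.card_sigma]
  calc ∑ ω, (univ.filter (fun x => Q (upd ω x))).card ≤ ∑ _ω : Ω, 2 :=
        Finset.sum_le_sum (fun ω _ => h2 ω)
    _ = 2 * Fintype.card Ω := by
        rw [Finset.sum_const, smul_eq_mul, mul_comm, Finset.card_univ]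

theorem two_sol (h K D : ℕ) :
    (univ.filter (fun x : Fin h => (K + (x : ℕ)) / 2 = D)).card ≤ 2 := by
  have : (univ.filter (fun x : Fin h => (K + (x : ℕ)) / 2 = D)).card ≤
      ({2 * D - K, 2 * D + 1 - K} : Finset ℕ).card := by
    apply Finset.card_le_card_of_injOn (fun x : Fin h => (x : ℕ))
    · intro x hx
      simp only [Finset.mem_coe, mem_filter, mem_univ, true_and] at hx
      simp only [Finset.coe_insert, Finset.coe_singleton, Set.mem_insert_iff,
        Set.mem_singleton_iff]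
      omega
    · intro x _ y _ hxy
      exact Fin.ext hxy
  exact this.trans Finset.card_le_two

theorem one_sol (h : ℕ) (c : Fin h) :
    (univ.filter (fun x : Fin h => x = c)).card ≤ 2 := by
  rw [Finset.filter_eq' univ c]
  simp

/-- change the first component of `g` -/
def upd1 {m h : ℕ} (g : Fin m) (ω : Geo m h) (x : Fin h) : Geo m h :=
  Function.update ω g (x, (ω g).2)

/-- change the second component of `g` -/
def upd2 {m h : ℕ} (g : Fin m) (ω : Geo m h) (x : Fin h) : Geo m h :=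
  Function.update ω g ((ω g).1, x)

theorem card_geo (m h : ℕ) : Fintype.card (Geo m h) = (h ^ 2) ^ m := by
  simp [Geo, sq]

section
variable {m h : ℕ} (g : Fin m) (ω : Geo m h) (x : Fin h)

theorem upd1_self : (upd1 g ω x) g = (x, (ω g).2) := by simp [upd1]
theorem upd2_self : (upd2 g ω x) g = ((ω g).1, x) := by simp [upd2]
theorem upd1_ne {g' : Fin m} (hne : g' ≠ g) : (upd1 g ω x) g' = ω g' := by
  simp [upd1, Function.update_of_ne hne]
theorem upd2_ne {g' : Fin m} (hne : g' ≠ g) : (upd2 g ω x) g' = ω g' := by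
  simp [upd2, Function.update_of_ne hne]
theorem upd1_snd (g' : Fin m) : ((upd1 g ω x) g').2 = (ω g').2 := by
  by_cases hne : g' = g
  · subst hne; rw [upd1_self]
  · rw [upd1_ne g ω x hne]
theorem upd2_fst (g' : Fin m) : ((upd2 g ω x) g').1 = (ω g').1 := by
  by_cases hne : g' = g
  · subst hne; rw [upd2_self]
  · rw [upd2_ne g ω x hne]

end

theorem count_upd1 {m h : ℕ} (g : Fin m) (Q : Geo m h → Prop) [DecidablePred Q]
    (h2 : ∀ ω, (univ.filter (fun x => Q (upd1 g ω x))).card ≤ 2) :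
    (univ.filter Q).card * h ≤ 2 * (h ^ 2) ^ m := by
  rw [← card_geo]
  apply count2 (upd1 g) (fun ω => (ω g).1)
  · intro ω y
    simp [upd1]
  · intro ω y
    simp [upd1]
  · exact h2

theorem count_upd2 {m h : ℕ} (g : Fin m) (Q : Geo m h → Prop) [DecidablePred Q]
    (h2 : ∀ ω, (univ.filter (fun x => Q (upd2 g ω x))).card ≤ 2) :
    (univ.filter Q).card * h ≤ 2 * (h ^ 2) ^ m := by
  rw [← card_geo]
  apply count2 (upd2 g) (fun ω => (ω g).2)
  · intro ω y
    simp [upd2]
  · intro ω y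
    simp [upd2]
  · exact h2

theorem c_i {m h : ℕ} (g g' : Fin m) :
    (univ.filter (fun ω : Geo m h => mid ω g = (ω g').1)).card * h ≤ 2 * (h ^ 2) ^ m := by
  apply count_upd2 g
  intro ω
  refine le_trans (Finset.card_le_card ?_) (two_sol h ((ω g).1 + h) (ω g').1)
  intro x hx
  simp only [mem_filter, mem_univ, true_and, mid, upd2_self, upd2_fst] at hx ⊢
  omega

theorem c_ii {m h : ℕ} (g g' : Fin m) :
    (univ.filter (fun ω : Geo m h => mid ω g = h + (ω g').2)).card * h ≤ 2 * (h ^ 2) ^ m := by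
  apply count_upd1 g
  intro ω
  refine le_trans (Finset.card_le_card ?_) (two_sol h (h + (ω g).2) (h + (ω g').2))
  intro x hx
  simp only [mem_filter, mem_univ, true_and, mid, upd1_self, upd1_snd] at hx ⊢
  omega

theorem c_iii {m h : ℕ} (g g' : Fin m) (hne : g ≠ g') :
    (univ.filter (fun ω : Geo m h => (ω g).1 = (ω g').1)).card * h ≤ 2 * (h ^ 2) ^ m := by
  apply count_upd1 g
  intro ω
  refine le_trans (Finset.card_le_card ?_) (one_sol h (ω g').1)
  intro x hx
  simp only [mem_filter, mem_univ, true_and, upd1_self] at hx ⊢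
  rw [upd1_ne g ω x hne.symm] at hx
  exact hx

theorem c_iv {m h : ℕ} (g g' : Fin m) (hne : g ≠ g') :
    (univ.filter (fun ω : Geo m h => (ω g).2 = (ω g').2)).card * h ≤ 2 * (h ^ 2) ^ m := by
  apply count_upd2 g
  intro ω
  refine le_trans (Finset.card_le_card ?_) (one_sol h (ω g').2)
  intro x hx
  simp only [mem_filter, mem_univ, true_and, upd2_self] at hx ⊢
  rw [upd2_ne g ω x hne.symm] at hx
  exact hx

theorem c_v {m h : ℕ} (g g' g'' : Fin m) (hne : ¬ (g = g' ∧ g' = g'')) :
    (univ.filter (fun ω : Geo m h => mid ω g' = ((ω g).1 + (h + (ω g'').2)) / 2)).card * h ≤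
      2 * (h ^ 2) ^ m := by
  by_cases h1 : g' = g''
  · subst h1
    have hg : g' ≠ g := fun h2 => hne ⟨h2.symm, rfl⟩
    apply count_upd1 g
    intro ω
    refine le_trans (Finset.card_le_card ?_) (two_sol h (h + (ω g').2) (mid ω g'))
    intro x hx
    rw [Finset.mem_filter] at hx ⊢
    refine ⟨mem_univ _, ?_⟩
    have hx2 := hx.2
    simp only [mid, upd1_self, upd1_snd] at hx2 ⊢
    rw [upd1_ne g ω x hg] at hx2
    omega
  · apply count_upd2 g''
    intro ω
    refine le_trans (Finset.card_le_card ?_) (two_sol h ((ω g).1 + h) (mid ω g'))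
    intro x hx
    rw [Finset.mem_filter] at hx ⊢
    refine ⟨mem_univ _, ?_⟩
    have hx2 := hx.2
    simp only [mid, upd2_self, upd2_fst] at hx2 ⊢
    rw [upd2_ne g'' ω x h1] at hx2
    omega

open Classical in
/-- TASK BAD. -/
theorem bad_count (m h : ℕ) :
    (univ.filter (fun ω : Geo m h => ¬ Good ω)).card * h ≤ 10 * m ^ 3 * (h ^ 2) ^ m := by
  rcases Nat.eq_zero_or_pos m with hm | hm
  · subst hm
    have : (univ.filter (fun ω : Geo 0 h => ¬ Good ω)) = ∅ := by
      apply Finset.filter_eq_empty_iff.2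
      intro ω _ hcon
      apply hcon
      refine ⟨fun g => g.elim0, fun g => g.elim0, fun g => g.elim0, fun g => g.elim0,
        fun g => g.elim0⟩
    rw [this]
    simp
  rcases Nat.eq_zero_or_pos h with hh | hh
  · subst hh
    simp
  set b := 2 * (h ^ 2) ^ m / h with hb
  have hbh : b * h ≤ 2 * (h ^ 2) ^ m := Nat.div_mul_le_self _ _
  have tob : ∀ c : ℕ, c * h ≤ 2 * (h ^ 2) ^ m → c ≤ b := fun c hc =>
    (Nat.le_div_iff_mul_le hh).2 hc
  set P2 := (univ : Finset (Fin m × Fin m)) with hP2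
  set P3 := (univ : Finset (Fin m × Fin m × Fin m)) with hP3
  have cP2 : P2.card = m ^ 2 := by simp [hP2, sq]
  have cP3 : P3.card = m ^ 3 := by simp [hP3]; ring
  set U1 := P2.biUnion (fun z => univ.filter (fun ω : Geo m h => mid ω z.1 = (ω z.2).1)) with hU1
  set U2 := P2.biUnion (fun z => univ.filter
    (fun ω : Geo m h => mid ω z.1 = h + (ω z.2).2)) with hU2
  set U3 := P2.biUnion (fun z => univ.filter
    (fun ω : Geo m h => z.1 ≠ z.2 ∧ (ω z.1).1 = (ω z.2).1)) with hU3
  set U4 := P2.biUnion (fun z => univ.filter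
    (fun ω : Geo m h => z.1 ≠ z.2 ∧ (ω z.1).2 = (ω z.2).2)) with hU4
  set U5 := P3.biUnion (fun z => univ.filter (fun ω : Geo m h => ¬ (z.1 = z.2.1 ∧ z.2.1 = z.2.2) ∧
    mid ω z.2.1 = ((ω z.1).1 + (h + (ω z.2.2).2)) / 2)) with hU5
  have b1 : U1.card ≤ m ^ 2 * b := by
    rw [← cP2]
    exact Finset.card_biUnion_le_card_mul _ _ _ (fun z _ => tob _ (c_i _ _))
  have b2 : U2.card ≤ m ^ 2 * b := by
    rw [← cP2]
    exact Finset.card_biUnion_le_card_mul _ _ _ (fun z _ => tob _ (c_ii _ _))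
  have b3 : U3.card ≤ m ^ 2 * b := by
    rw [← cP2]
    refine Finset.card_biUnion_le_card_mul _ _ _ (fun z _ => ?_)
    by_cases hz : z.1 = z.2
    · simp [hz]
    · exact (Finset.card_le_card (fun ω hω => by
        simp only [mem_filter, mem_univ, true_and] at hω ⊢; exact hω.2)).trans
        (tob _ (c_iii _ _ hz))
  have b4 : U4.card ≤ m ^ 2 * b := by
    rw [← cP2]
    refine Finset.card_biUnion_le_card_mul _ _ _ (fun z _ => ?_)
    by_cases hz : z.1 = z.2
    · simp [hz]
    · exact (Finset.card_le_card (fun ω hω => by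
        simp only [mem_filter, mem_univ, true_and] at hω ⊢; exact hω.2)).trans
        (tob _ (c_iv _ _ hz))
  have b5 : U5.card ≤ m ^ 3 * b := by
    rw [← cP3]
    refine Finset.card_biUnion_le_card_mul _ _ _ (fun z _ => ?_)
    by_cases hz : z.1 = z.2.1 ∧ z.2.1 = z.2.2
    · simp [hz]
    · exact (Finset.card_le_card (fun ω hω => by
        simp only [mem_filter, mem_univ, true_and] at hω ⊢; exact hω.2)).trans
        (tob _ (c_v _ _ _ hz))
  have hsub : (univ.filter (fun ω : Geo m h => ¬ Good ω)) ⊆ U1 ∪ (U2 ∪ (U3 ∪ (U4 ∪ U5))) := by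
    intro ω hω
    simp only [mem_filter, mem_univ, true_and] at hω
    by_contra hcon
    apply hω
    simp only [hU1, hU2, hU3, hU4, hU5, hP2, hP3, mem_union, mem_biUnion, mem_filter, mem_univ,
      true_and, Prod.exists, not_or, not_exists, not_and] at hcon
    obtain ⟨k1, k2, k3, k4, k5⟩ := hcon
    refine ⟨k1, k2, k3, k4, ?_⟩
    intro g g' g'' hne
    exact k5 g g' g'' (fun e1 e2 => hne ⟨e1, e2⟩)
  have hcard : (univ.filter (fun ω : Geo m h => ¬ Good ω)).card ≤ (4 * m ^ 2 + m ^ 3) * b := by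
    calc _ ≤ (U1 ∪ (U2 ∪ (U3 ∪ (U4 ∪ U5)))).card := Finset.card_le_card hsub
      _ ≤ U1.card + (U2.card + (U3.card + (U4.card + U5.card))) := by
          refine (Finset.card_union_le _ _).trans (Nat.add_le_add_left ?_ _)
          refine (Finset.card_union_le _ _).trans (Nat.add_le_add_left ?_ _)
          refine (Finset.card_union_le _ _).trans (Nat.add_le_add_left ?_ _)
          exact Finset.card_union_le _ _
      _ ≤ m ^ 2 * b + (m ^ 2 * b + (m ^ 2 * b + (m ^ 2 * b + m ^ 3 * b))) := by gcongr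
      _ = (4 * m ^ 2 + m ^ 3) * b := by ring
  have hm23 : 4 * m ^ 2 + m ^ 3 ≤ 5 * m ^ 3 := by
    have : m ^ 2 ≤ m ^ 3 := Nat.pow_le_pow_right hm (by norm_num)
    omega
  calc (univ.filter (fun ω : Geo m h => ¬ Good ω)).card * h
      ≤ (4 * m ^ 2 + m ^ 3) * b * h := Nat.mul_le_mul_right _ hcard
    _ = (4 * m ^ 2 + m ^ 3) * (b * h) := by ring
    _ ≤ (5 * m ^ 3) * (2 * (h ^ 2) ^ m) := Nat.mul_le_mul hm23 hbh
    _ = 10 * m ^ 3 * (h ^ 2) ^ m := by ring

end Pool.Agent.H559R12
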