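import Pool.Agent.H559R12.Cut

set_option autoImplicit false

namespace Pool.Agent.H559R12

open Finset

namespace NBP

variable {n : ℕ} {α : Type}

open Classical in
/-- the position asked by an edge, as a set -/
noncomputable def pset (P : NBP n α) (e : P.E) : Finset (Fin n) :=
  univ.filter (fun i => P.pos e = some i)

/-- the sets of positions of the segments and edges -/
noncomputable def pieces (P : NBP n α) : P.V → List P.E → P.V → List (Finset (Fin n))
  | x, [], v => [P.seg x v]
  | x, e :: es, v => P.seg x (P.src e) :: P.pset e :: pieces P (P.dst e) es v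

theorem mem_pset (P : NBP n α) (e : P.E) (i : Fin n) : i ∈ P.pset e ↔ P.pos e = some i := by
  classical
  unfold pset
  simp

theorem pset_card (P : NBP n α) (e : P.E) : (P.pset e).card ≤ 1 := by
  classical
  rw [Finset.card_le_one]
  intro i hi j hj
  rw [mem_pset] at hi hj
  rw [hi] at hj
  exact Option.some.inj hj

theorem pieces_small (P : NBP n α) (s : ℕ) (hs : 1 ≤ s) : ∀ (es : List P.E) (x v : P.V),
    P.Small s x es v → ∀ S ∈ P.pieces x es v, S.card ≤ s := by
  intro es
  induction es with
  | nil =>
    intro x v h S hS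
    rw [show P.pieces x [] v = [P.seg x v] from rfl, List.mem_singleton] at hS
    rw [hS]
    exact h
  | cons e es ih =>
    intro x v h S hS
    rw [show P.pieces x (e :: es) v = P.seg x (P.src e) :: P.pset e :: P.pieces (P.dst e) es v
      from rfl, List.mem_cons, List.mem_cons] at hS
    rcases hS with rfl | rfl | hS
    · exact h.1
    · exact (P.pset_card e).trans hs
    · exact ih _ _ h.2 S hS

theorem mem_seg (P : NBP n α) (x y : P.V) (i : Fin n) :
    i ∈ P.seg x y ↔ ∃ p, P.Walk x p y ∧ 1 ≤ P.cnt i p := by
  classical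
  unfold seg
  simp

theorem cnt_cons (P : NBP n α) (i : Fin n) (e : P.E) (p : List P.E) :
    P.cnt i (e :: p) = (if P.pos e = some i then 1 else 0) + P.cnt i p := by
  classical
  unfold cnt
  rw [List.countP_cons]
  by_cases h : P.pos e = some i
  · simp [h]; ring
  · simp [h]

open Classical in
theorem pieces_count (P : NBP n α) (w : Fin n → α) (i : Fin n) : ∀ (es : List P.E) (x v : P.V),
    P.Fit w x es v → ∃ p, P.Walk x p v ∧
      (P.pieces x es v).countP (fun S => decide (i ∈ S)) ≤ P.cnt i p := by
  have hseg : ∀ x y : P.V, P.Conn w x y → ∃ p, P.Walk x p y ∧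
      (if i ∈ P.seg x y then 1 else 0) ≤ P.cnt i p := by
    intro x y hxy
    by_cases hi : i ∈ P.seg x y
    · obtain ⟨p, hp, hc⟩ := (P.mem_seg x y i).1 hi
      exact ⟨p, hp, by rw [if_pos hi]; exact hc⟩
    · obtain ⟨p, hp, _⟩ := hxy
      exact ⟨p, hp, by rw [if_neg hi]; exact Nat.zero_le _⟩
  intro es
  induction es with
  | nil =>
    intro x v h
    obtain ⟨p, hp, hc⟩ := hseg x v h
    refine ⟨p, hp, ?_⟩
    rw [show P.pieces x [] v = [P.seg x v] from rfl, List.countP_singleton]
    simpa using hc
  | cons e es ih =>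
    intro x v h
    obtain ⟨h1, _, h3⟩ := h
    obtain ⟨p, hp, hc⟩ := hseg x _ h1
    obtain ⟨q, hq, hd⟩ := ih _ _ h3
    refine ⟨p ++ e :: q, (walk_append P _ _ _ _).2 ⟨P.src e, hp, rfl, hq⟩, ?_⟩
    rw [show P.pieces x (e :: es) v = P.seg x (P.src e) :: P.pset e :: P.pieces (P.dst e) es v
      from rfl, List.countP_cons, List.countP_cons, cnt_append, cnt_cons]
    have e1 : (if decide (i ∈ P.pset e) = true then 1 else 0) =
        (if P.pos e = some i then 1 else 0) := by
      simp only [decide_eq_true_eq, P.mem_pset]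
    have e2 : (if decide (i ∈ P.seg x (P.src e)) = true then 1 else 0) =
        (if i ∈ P.seg x (P.src e) then 1 else 0) := by
      simp only [decide_eq_true_eq]
    rw [e1, e2]
    omega

theorem cnt_pos_of_mem (P : NBP n α) (i : Fin n) (e : P.E) (p : List P.E) (he : e ∈ p)
    (hi : P.pos e = some i) : 1 ≤ P.cnt i p := by
  classical
  unfold cnt
  exact List.countP_pos_iff.2 ⟨e, he, by simp [hi]⟩

/-- a passable walk stays passable when the word changes outside the positions of the segment -/
theorem conn_congr (P : NBP n α) (w w'' : Fin n → α) (x y : P.V) (h : P.Conn w x y)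
    (hw : ∀ i ∈ P.seg x y, w'' i = w i) : P.Conn w'' x y := by
  obtain ⟨p, hp, hpp⟩ := h
  refine ⟨p, hp, ?_⟩
  intro e he i hi
  rw [hw i ((P.mem_seg x y i).2 ⟨p, hp, P.cnt_pos_of_mem i e p he hi⟩)]
  exact hpp e he i hi

theorem fit_mix (P : NBP n α) (w w' w'' : Fin n → α) : ∀ (es : List P.E) (x v : P.V),
    P.Fit w x es v → P.Fit w' x es v →
    (∀ S ∈ P.pieces x es v, (∀ i ∈ S, w'' i = w i) ∨ (∀ i ∈ S, w'' i = w' i)) →
    P.Fit w'' x es v := by
  have hseg : ∀ x y : P.V, P.Conn w x y → P.Conn w' x y →
      ((∀ i ∈ P.seg x y, w'' i = w i) ∨ (∀ i ∈ P.seg x y, w'' i = w' i)) → P.Conn w'' x y := by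
    intro x y h h' hor
    rcases hor with h1 | h1
    · exact P.conn_congr w w'' x y h h1
    · exact P.conn_congr w' w'' x y h' h1
  intro es
  induction es with
  | nil =>
    intro x v h h' hS
    exact hseg x v h h' (hS _ (by
      rw [show P.pieces x [] v = [P.seg x v] from rfl]
      exact List.mem_singleton.2 rfl))
  | cons e es ih =>
    intro x v h h' hS
    rw [show P.pieces x (e :: es) v = P.seg x (P.src e) :: P.pset e :: P.pieces (P.dst e) es v
      from rfl] at hS
    refine ⟨hseg _ _ h.1 h'.1 (hS _ List.mem_cons_self), ?_, ih _ _ h.2.2 h'.2.2 ?_⟩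
    · intro i hi
      have hi' := (P.mem_pset e i).2 hi
      rcases hS (P.pset e) (List.mem_cons_of_mem _ List.mem_cons_self) with h1 | h1
      · rw [h1 i hi']
        exact h.2.1 i hi
      · rw [h1 i hi']
        exact h'.2.1 i hi
    · intro S hS'
      exact hS S (List.mem_cons_of_mem _ (List.mem_cons_of_mem _ hS'))

theorem conn_of_fit (P : NBP n α) (w : Fin n → α) : ∀ (es : List P.E) (x v : P.V),
    P.Fit w x es v → P.Conn w x v := by
  intro es
  induction es with
  | nil => intro x v h; exact h
  | cons e es ih =>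
    intro x v h
    obtain ⟨p, hp, hpp⟩ := h.1
    obtain ⟨q, hq, hqp⟩ := ih _ _ h.2.2
    refine ⟨p ++ e :: q, (walk_append P _ _ _ _).2 ⟨P.src e, hp, rfl, hq⟩, ?_⟩
    intro e' he'
    rcases List.mem_append.1 he' with h1 | h1
    · exact hpp e' h1
    · rcases List.mem_cons.1 h1 with h2 | h2
      · rw [h2]; exact h.2.1
      · exact hqp e' h2

/-- the last node given by the last edge -/
def lastNode (P : NBP n α) : Option P.E → P.V
  | none => P.start
  | some e => P.dst e

theorem walk_last (P : NBP n α) (p : List P.E) (v : P.V) (h : P.Walk P.start p v) :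
    P.lastNode p.getLast? = v := by
  rcases List.eq_nil_or_concat p with hp | ⟨q, e, hp⟩
  · subst hp
    exact h
  · rw [List.concat_eq_append] at hp
    subst hp
    obtain ⟨x, _, h2⟩ := (walk_append P _ _ _ _).1 h
    have h3 : P.src e = x ∧ P.dst e = v := h2
    rw [List.getLast?_append]
    simp only [List.getLast?_singleton, Option.some_or]
    exact h3.2

theorem count_get {β : Type} (l : List β) (p : β → Prop) [DecidablePred p] :
    (univ.filter (fun j : Fin l.length => p (l.get j))).card = l.countP (fun a => decide (p a)) := by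
  induction l with
  | nil => rfl
  | cons a l ih =>
    rw [List.countP_cons, ← ih, Finset.card_filter, Finset.card_filter]
    refine (Fin.sum_univ_succ
      (fun i : Fin (l.length + 1) => if p ((a :: l).get i) then 1 else 0)).trans ?_
    simp only [decide_eq_true_eq]
    rw [add_comm]
    rfl

open Classical in
/-- TASK COV. -/
theorem cover (P : NBP n α) (k s : ℕ) (hs : 1 ≤ s) (hP : P.ReadK k) :
    ∃ F : (Fin (k * n / s) → Option P.E) × Option P.E → Set (Fin n → α),
      (∀ w, P.Accepts w → ∃ τ, w ∈ F τ) ∧
      ∀ τ, ∃ (r : ℕ) (S : Fin r → Finset (Fin n)),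
        (∀ j, (S j).card ≤ s) ∧ (∀ i, (univ.filter (fun j => i ∈ S j)).card ≤ k) ∧
        ∀ (side : Fin r → Bool) (w w' w'' : Fin n → α), w ∈ F τ → w' ∈ F τ →
          (∀ j, ∀ i ∈ S j, w'' i = if side j = true then w i else w' i) → P.Accepts w'' := by
  set M := k * n / s with hM
  set F : (Fin M → Option P.E) × Option P.E → Set (Fin n → α) := fun τ =>
    {w | ∃ es : List P.E, es.length ≤ M ∧ (∀ i : Fin M, τ.1 i = es[(i : ℕ)]?) ∧
      P.Fit w P.start es (P.lastNode τ.2) ∧ P.Small s P.start es (P.lastNode τ.2) ∧
      P.acc (P.lastNode τ.2)} with hF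
  refine ⟨F, ?_, ?_⟩
  · rintro w ⟨p, v, hw, hv, hp⟩
    obtain ⟨es, h1, h2, h3⟩ := P.exists_cut k s hs hP w p v hw hv hp
    refine ⟨(fun i => es[(i : ℕ)]?, p.getLast?), es, ?_, fun i => rfl, ?_⟩
    · exact (Nat.le_div_iff_mul_le (by omega)).2 h1
    · simp only [P.walk_last p v hw]
      exact ⟨h2, h3, hv⟩
  · intro τ
    by_cases hne : (F τ).Nonempty
    · obtain ⟨w0, es, hlen, hget, hfit, hsmall, hacc⟩ := hne
      have huniq : ∀ w ∈ F τ, P.Fit w P.start es (P.lastNode τ.2) := by
        rintro w ⟨es', hlen', hget', hfit', _, _⟩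
        have : es' = es := by
          apply List.ext_getElem?
          intro i
          by_cases hi : i < M
          · rw [← hget' ⟨i, hi⟩, ← hget ⟨i, hi⟩]
          · rw [List.getElem?_eq_none (by omega), List.getElem?_eq_none (by omega)]
        rw [← this]
        exact hfit'
      set L := P.pieces P.start es (P.lastNode τ.2) with hL
      refine ⟨L.length, L.get, ?_, ?_, ?_⟩
      · intro j
        exact P.pieces_small s hs es _ _ hsmall _ (List.get_mem _ _)
      · intro i
        rw [count_get L (fun S => i ∈ S)]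
        obtain ⟨p, hp, hc⟩ := P.pieces_count w0 i es _ _ hfit
        exact hc.trans (hP p _ hp hacc i)
      · intro side w w' w'' hw hw' hmix
        have hfin : P.Fit w'' P.start es (P.lastNode τ.2) := by
          apply P.fit_mix w w' w'' es _ _ (huniq w hw) (huniq w' hw')
          intro S hS
          obtain ⟨j, hj⟩ := List.get_of_mem hS
          have := hmix j
          rw [hj] at this
          cases hside : side j
          · right
            intro i hi
            have := this i hi
            rw [hside] at this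
            simpa using this
          · left
            intro i hi
            have := this i hi
            rw [hside] at this
            simpa using this
        obtain ⟨p, hp, hpp⟩ := P.conn_of_fit w'' es _ _ hfin
        exact ⟨p, _, hp, hacc, hpp⟩
    · refine ⟨0, fun j => j.elim0, fun j => j.elim0, fun i => by simp, ?_⟩
      intro side w w' w'' hw
      exact absurd ⟨w, hw⟩ hne

end NBP

end Pool.Agent.H559R12
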