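import Pool.Agent.H559R12.CutDefs

set_option autoImplicit false

namespace Pool.Agent.H559R12

open Finset

namespace NBP

variable {n : ℕ} {α : Type}

theorem walk_append (P : NBP n α) : ∀ (u : P.V) (p q : List P.E) (v : P.V),
    P.Walk u (p ++ q) v ↔ ∃ x, P.Walk u p x ∧ P.Walk x q v := by
  intro u p
  induction p generalizing u with
  | nil =>
    intro q v
    simp only [List.nil_append]
    constructor
    · intro h
      exact ⟨u, rfl, h⟩
    · rintro ⟨x, hx, h⟩
      have hx' : u = x := hx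
      rw [hx']
      exact h
  | cons e p ih =>
    intro q v
    show (P.src e = u ∧ P.Walk (P.dst e) (p ++ q) v) ↔ _
    rw [ih]
    constructor
    · rintro ⟨h1, x, h2, h3⟩
      exact ⟨x, ⟨h1, h2⟩, h3⟩
    · rintro ⟨x, ⟨h1, h2⟩, h3⟩
      exact ⟨h1, x, h2, h3⟩

theorem cnt_append (P : NBP n α) (i : Fin n) (p q : List P.E) :
    P.cnt i (p ++ q) = P.cnt i p + P.cnt i q := by
  unfold cnt
  rw [List.countP_append]

theorem cnt_nil (P : NBP n α) (i : Fin n) : P.cnt i [] = 0 := rfl

theorem conn_refl (P : NBP n α) (w : Fin n → α) (x : P.V) : P.Conn w x x :=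
  ⟨[], rfl, fun _ he => absurd he List.not_mem_nil⟩

theorem conn_snoc (P : NBP n α) (w : Fin n → α) (x a : P.V) (h : P.Conn w x a) (e : P.E)
    (he : P.src e = a) (hp : P.Pass w e) : P.Conn w x (P.dst e) := by
  obtain ⟨p, h1, h2⟩ := h
  refine ⟨p ++ [e], (walk_append P x p [e] (P.dst e)).2 ⟨a, h1, he, rfl⟩, ?_⟩
  intro e' he'
  rcases List.mem_append.1 he' with h | h
  · exact h2 e' h
  · rw [List.mem_singleton.1 h]
    exact hp

open Classical in
/-- largest number, at most `k`, of tests of `i` on a walk from the start node to `v` -/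
noncomputable def cmax (P : NBP n α) (k : ℕ) (v : P.V) (i : Fin n) : ℕ :=
  Nat.findGreatest (fun m => ∃ p, P.Walk P.start p v ∧ m ≤ P.cnt i p) k

/-- the sum of these numbers -/
noncomputable def tot (P : NBP n α) (k : ℕ) (v : P.V) : ℕ := ∑ i, P.cmax k v i

theorem cmax_le (P : NBP n α) (k : ℕ) (v : P.V) (i : Fin n) : P.cmax k v i ≤ k := by
  classical
  unfold cmax
  exact Nat.findGreatest_le k

theorem tot_le (P : NBP n α) (k : ℕ) (v : P.V) : P.tot k v ≤ k * n := by
  unfold tot
  calc ∑ i, P.cmax k v i ≤ ∑ _i : Fin n, k := Finset.sum_le_sum (fun i _ => P.cmax_le k v i)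
    _ = k * n := by rw [Finset.sum_const, smul_eq_mul, Finset.card_univ, Fintype.card_fin,
        mul_comm]

/-- `v` is reachable from the start node -/
def Reach (P : NBP n α) (v : P.V) : Prop := ∃ p, P.Walk P.start p v

/-- some accepting node is reachable from `v` -/
def CoR (P : NBP n α) (v : P.V) : Prop := ∃ p u, P.Walk v p u ∧ P.acc u

theorem cmax_spec (P : NBP n α) (k : ℕ) (v : P.V) (hv : P.Reach v) (i : Fin n) :
    ∃ p, P.Walk P.start p v ∧ P.cmax k v i ≤ P.cnt i p := by
  classical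
  obtain ⟨p, hp⟩ := hv
  have := Nat.findGreatest_spec (P := fun m => ∃ p, P.Walk P.start p v ∧ m ≤ P.cnt i p)
    (m := 0) (n := k) (Nat.zero_le _) ⟨p, hp, Nat.zero_le _⟩
  unfold cmax
  convert this

theorem cmax_step (P : NBP n α) (k : ℕ) (hP : P.ReadK k) (x v : P.V) (hx : P.Reach x)
    (hv : P.CoR v) (q : List P.E) (hq : P.Walk x q v) (i : Fin n) :
    P.cmax k x i + P.cnt i q ≤ P.cmax k v i := by
  classical
  obtain ⟨p, hp, hc⟩ := P.cmax_spec k x hx i
  obtain ⟨p', u, hp', hu⟩ := hv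
  have hw : P.Walk P.start (p ++ q) v := (walk_append P _ _ _ _).2 ⟨x, hp, hq⟩
  have hw2 : P.Walk P.start ((p ++ q) ++ p') u := (walk_append P _ _ _ _).2 ⟨v, hw, hp'⟩
  have hk := hP _ u hw2 hu i
  rw [cnt_append] at hk
  have h1 : P.cnt i (p ++ q) ≤ P.cmax k v i := by
    unfold cmax
    exact Nat.le_findGreatest (by omega) ⟨p ++ q, hw, le_rfl⟩
  rw [cnt_append] at h1
  omega

theorem seg_card (P : NBP n α) (k : ℕ) (hP : P.ReadK k) (x v : P.V) (hx : P.Reach x)
    (hv : P.CoR v) (q : List P.E) (hq : P.Walk x q v) :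
    P.tot k x + (P.seg x v).card ≤ P.tot k v := by
  classical
  have h1 : (P.seg x v).card = ∑ i, if i ∈ P.seg x v then 1 else 0 := by
    rw [Finset.sum_boole]
    simp
  rw [h1]
  unfold tot
  rw [← Finset.sum_add_distrib]
  apply Finset.sum_le_sum
  intro i _
  split_ifs with hi
  · unfold seg at hi
    simp only [mem_filter, mem_univ, true_and] at hi
    obtain ⟨p, hp, hc⟩ := hi
    have := P.cmax_step k hP x v hx hv p hp i
    omega
  · have := P.cmax_step k hP x v hx hv q hq i
    omega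

theorem cut_aux (P : NBP n α) (k s : ℕ) (hP : P.ReadK k) (w : Fin n → α) (v : P.V)
    (hv : P.acc v) : ∀ (q : List P.E) (x a : P.V), P.Reach x → P.Conn w x a →
      P.tot k a ≤ P.tot k x + s → P.Walk a q v → (∀ e ∈ q, P.Pass w e) →
      ∃ es : List P.E, P.tot k x + es.length * s ≤ P.tot k v ∧ P.Fit w x es v ∧
        P.Small s x es v := by
  intro q
  induction q with
  | nil =>
    intro x a hx hxa ha hq _
    have hav : a = v := hq
    subst hav
    obtain ⟨p, hp, hpp⟩ := hxa
    have h1 := P.seg_card k hP x a hx ⟨[], a, rfl, hv⟩ p hp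
    refine ⟨[], ?_, ⟨p, hp, hpp⟩, ?_⟩
    · simp only [List.length_nil, zero_mul, add_zero]
      omega
    · show (P.seg x a).card ≤ s
      omega
  | cons e q ih =>
    intro x a hx hxa ha hq hpass
    obtain ⟨hea, hq'⟩ := hq
    have hpe : P.Pass w e := hpass e List.mem_cons_self
    have hpq : ∀ e ∈ q, P.Pass w e := fun e' he' => hpass e' (List.mem_cons_of_mem _ he')
    by_cases hc : P.tot k (P.dst e) ≤ P.tot k x + s
    · exact ih x (P.dst e) hx (P.conn_snoc w x a hxa e hea hpe) hc hq' hpq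
    · push Not at hc
      obtain ⟨p, hp, hpp⟩ := hxa
      have hra : P.Reach a := by
        obtain ⟨p0, hp0⟩ := hx
        exact ⟨p0 ++ p, (walk_append P _ _ _ _).2 ⟨x, hp0, hp⟩⟩
      have hrd : P.Reach (P.dst e) := by
        obtain ⟨p0, hp0⟩ := hra
        exact ⟨p0 ++ [e], (walk_append P _ _ _ _).2 ⟨a, hp0, hea, rfl⟩⟩
      obtain ⟨es, h1, h2, h3⟩ := ih (P.dst e) (P.dst e) hrd (P.conn_refl w _) (by omega) hq' hpq
      have hcoa : P.CoR a := ⟨e :: q, v, ⟨hea, hq'⟩, hv⟩
      have h4 := P.seg_card k hP x a hx hcoa p hp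
      refine ⟨e :: es, ?_, ⟨?_, hpe, h2⟩, ?_, h3⟩
      · simp only [List.length_cons]
        have : (es.length + 1) * s = es.length * s + s := by ring
        omega
      · rw [hea]
        exact ⟨p, hp, hpp⟩
      · rw [hea]
        omega

/-- TASK CUT. -/
theorem exists_cut (P : NBP n α) (k s : ℕ) (hs : 1 ≤ s) (hP : P.ReadK k) (w : Fin n → α)
    (p : List P.E) (v : P.V) (hw : P.Walk P.start p v) (hv : P.acc v) (hp : ∀ e ∈ p, P.Pass w e) :
    ∃ es : List P.E, es.length * s ≤ k * n ∧ P.Fit w P.start es v ∧ P.Small s P.start es v := by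
  obtain ⟨es, h1, h2, h3⟩ := P.cut_aux k s hP w v hv p P.start P.start ⟨[], rfl⟩
    (P.conn_refl w _) (by omega) hw hp
  have h4 := P.tot_le k v
  exact ⟨es, by omega, h2, h3⟩

end NBP

end Pool.Agent.H559R12
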