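import Pool.Agent.H559R12.Defs

set_option autoImplicit false

namespace Pool.Agent.H559R12

open Finset

namespace NBP

variable {n : ℕ} {α : Type}

/-- the walks from `x` to `y` that may be passed on `w` -/
def Conn (P : NBP n α) (w : Fin n → α) (x y : P.V) : Prop :=
  ∃ p, P.Walk x p y ∧ ∀ e ∈ p, P.Pass w e

open Classical in
/-- the positions asked on some walk from `x` to `y` -/
noncomputable def seg (P : NBP n α) (x y : P.V) : Finset (Fin n) :=
  univ.filter (fun i => ∃ p, P.Walk x p y ∧ 1 ≤ P.cnt i p)

/-- a passable walk from `x` to `v` through the edges `es` (in this order) -/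
def Fit (P : NBP n α) (w : Fin n → α) : P.V → List P.E → P.V → Prop
  | x, [], v => P.Conn w x v
  | x, e :: es, v => P.Conn w x (P.src e) ∧ P.Pass w e ∧ Fit P w (P.dst e) es v

/-- the segments between the edges `es` ask about at most `s` positions each -/
def Small (P : NBP n α) (s : ℕ) : P.V → List P.E → P.V → Prop
  | x, [], v => (P.seg x v).card ≤ s
  | x, e :: es, v => (P.seg x (P.src e)).card ≤ s ∧ Small P s (P.dst e) es v

end NBP

end Pool.Agent.H559R12
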