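import Mathlib

/-!
Nondeterministic and deterministic branching programs that read the letters of a word, and the
language of the words with an `a`, a `b` and a `c` such that `b` is in the middle.
-/

set_option autoImplicit false

namespace Pool.Agent.H559R12

/-- A nondeterministic branching program for words of length `n` over the alphabet `α`: a directed
multigraph with nodes `V` and finitely many edges `E`, a start node and a set of accepting nodes.
An edge `e` with `pos e = none` is free; an edge with `pos e = some i` asks a question about the
`i`-th letter of the word: it may be passed if this letter satisfies `ok e`. -/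
structure NBP (n : ℕ) (α : Type) where
  V : Type
  E : Type
  finE : Fintype E
  src : E → V
  dst : E → V
  pos : E → Option (Fin n)
  ok : E → α → Prop
  start : V
  acc : V → Prop

attribute [instance] NBP.finE

namespace NBP

variable {n : ℕ} {α : Type}

/-- `P.Walk u p v`: the list of edges `p` is a walk from `u` to `v` -/
def Walk (P : NBP n α) : P.V → List P.E → P.V → Prop
  | u, [], v => u = v
  | u, e :: p, v => P.src e = u ∧ Walk P (P.dst e) p v

/-- on the word `w` the edge `e` may be passed -/
def Pass (P : NBP n α) (w : Fin n → α) (e : P.E) : Prop := ∀ i, P.pos e = some i → P.ok e (w i)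

/-- the program accepts the word `w`: some walk from the start node to an accepting node may be
passed on `w` -/
def Accepts (P : NBP n α) (w : Fin n → α) : Prop :=
  ∃ p v, P.Walk P.start p v ∧ P.acc v ∧ ∀ e ∈ p, P.Pass w e

open Classical in
/-- number of edges of the walk `p` that ask about position `i` -/
noncomputable def cnt (P : NBP n α) (i : Fin n) (p : List P.E) : ℕ :=
  p.countP (fun e => decide (P.pos e = some i))

/-- (syntactic) read-`k`-times programs: every walk from the start node to an accepting node,
consistent or not, asks at most `k` times about each position -/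
def ReadK (P : NBP n α) (k : ℕ) : Prop :=
  ∀ p v, P.Walk P.start p v → P.acc v → ∀ i, P.cnt i p ≤ k

end NBP

/-- A deterministic branching program for words of length `n` over the alphabet `α`: finitely many
nodes; a node either asks for the `i`-th letter of the word and continues at the node given by the
answer, or is an output node with an output in `Bool`. -/
structure DBP (n : ℕ) (α : Type) where
  V : Type
  finV : Fintype V
  start : V
  node : V → Fin n ⊕ Bool
  next : V → α → V

attribute [instance] DBP.finV

namespace DBP

variable {n : ℕ} {α : Type}

/-- `D.Run R u p v`: `p` is the list of positions asked on a walk from `u` to the output node `v`,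
such that at each node asking about position `i` an answer `a` with `R i a` is given -/
inductive Run (D : DBP n α) (R : Fin n → α → Prop) : D.V → List (Fin n) → Bool → Prop
  | out (u : D.V) (b : Bool) (h : D.node u = Sum.inr b) : Run D R u [] b
  | ask (u : D.V) (i : Fin n) (a : α) (p : List (Fin n)) (b : Bool) (h : D.node u = Sum.inl i)
      (ha : R i a) (hr : Run D R (D.next u a) p b) : Run D R u (i :: p) b

/-- on the word `w` the program outputs `b` -/
def Outputs (D : DBP n α) (w : Fin n → α) (b : Bool) : Prop :=
  ∃ p, D.Run (fun i a => a = w i) D.start p b

/-- (syntactic) read-`k`-times programs: every walk from the start node to an output node,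
consistent or not, asks at most `k` times about each position -/
def ReadK (D : DBP n α) (k : ℕ) : Prop :=
  ∀ p b, D.Run (fun _ _ => True) D.start p b → ∀ i, p.count i ≤ k

end DBP

/-- the alphabet `{a, b, c, o}` -/
inductive Let
  | a
  | b
  | c
  | o
  deriving DecidableEq

instance : Fintype Let := ⟨{Let.a, Let.b, Let.c, Let.o}, fun x => by cases x <;> simp⟩

/-- the word has an `a` at position `i`, a `b` at position `j` and a `c` at position `l` with
`i < j < l` and `j` the middle of `i` and `l` (rounded down) -/
def InL {n : ℕ} (w : Fin n → Let) : Prop :=
  ∃ i j l : Fin n, i < j ∧ j < l ∧ (j : ℕ) = ((i : ℕ) + l) / 2 ∧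
    w i = Let.a ∧ w j = Let.b ∧ w l = Let.c

/-- geometries: `m` pairs `(p, q)` of numbers below `h`; they stand for the positions `p` (in the
first half) and `h + q` (in the second half) -/
abbrev Geo (m h : ℕ) : Type := Fin m → Fin h × Fin h

/-- middle of the `g`-th gadget -/
def mid {m h : ℕ} (ω : Geo m h) (g : Fin m) : ℕ := ((ω g).1 + (h + (ω g).2)) / 2

/-- the gadgets of the geometry do not interfere -/
def Good {m h : ℕ} (ω : Geo m h) : Prop :=
  (∀ g g', mid ω g ≠ (ω g').1) ∧ (∀ g g', mid ω g ≠ h + (ω g').2) ∧
  (∀ g g', g ≠ g' → (ω g).1 ≠ (ω g').1) ∧ (∀ g g', g ≠ g' → (ω g).2 ≠ (ω g').2) ∧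
  (∀ g g' g'', ¬ (g = g' ∧ g' = g'') → mid ω g' ≠ ((ω g).1 + (h + (ω g'').2)) / 2)

open Classical in
/-- the word of a geometry `ω` and states `σ`: a letter `b` in the middle of each gadget, an `a` at
the left end of the gadgets with state `true`, a `c` at the right end of the gadgets with state
`false`, and `o` elsewhere -/
noncomputable def word {m h : ℕ} (n : ℕ) (ω : Geo m h) (σ : Fin m → Bool) (i : Fin n) : Let :=
  if ∃ g, (i : ℕ) = mid ω g then Let.b
  else if ∃ g, (i : ℕ) = (ω g).1 ∧ σ g = true then Let.a
  else if ∃ g, (i : ℕ) = h + (ω g).2 ∧ σ g = false then Let.c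
  else Let.o

end Pool.Agent.H559R12
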