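import Pool.Agent.H559R12.Defs

set_option autoImplicit false

namespace Pool.Agent.H559R12

namespace Det

theorem cnt_nil {n : ℕ} {α : Type} (P : NBP n α) (i : Fin n) : P.cnt i [] = 0 := by
  unfold NBP.cnt
  exact List.countP_nil

theorem cnt_cons_some {n : ℕ} {α : Type} (P : NBP n α) (e : P.E) (p : List P.E) (i j : Fin n)
    (h : P.pos e = some i) : P.cnt j (e :: p) = P.cnt j p + if (i == j) = true then 1 else 0 := by
  unfold NBP.cnt
  rw [List.countP_cons, h]
  by_cases hij : i = j
  · subst hij; simp
  · simp [hij]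

theorem cnt_cons_none {n : ℕ} {α : Type} (P : NBP n α) (e : P.E) (p : List P.E) (j : Fin n)
    (h : P.pos e = none) : P.cnt j (e :: p) = P.cnt j p := by
  unfold NBP.cnt
  rw [List.countP_cons, h]
  simp

variable {n : ℕ} {α : Type} [Fintype α]

/-- the nondeterministic program of a deterministic program -/
def prog (D : DBP n α) (b : Bool) : NBP n α where
  V := D.V
  E := D.V × α
  finE := inferInstance
  src := fun e => e.1
  dst := fun e => match D.node e.1 with
    | Sum.inl _ => D.next e.1 e.2
    | Sum.inr _ => e.1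
  pos := fun e => match D.node e.1 with
    | Sum.inl i => some i
    | Sum.inr _ => none
  ok := fun e x => x = e.2
  start := D.start
  acc := fun v => D.node v = Sum.inr b

theorem dst_inl (D : DBP n α) (b : Bool) (u : D.V) (a : α) (i : Fin n)
    (h : D.node u = Sum.inl i) : (prog D b).dst (u, a) = D.next u a := by
  simp only [prog, h]

theorem dst_inr (D : DBP n α) (b : Bool) (u : D.V) (a : α) (b' : Bool)
    (h : D.node u = Sum.inr b') : (prog D b).dst (u, a) = u := by
  simp only [prog, h]

theorem pos_inl (D : DBP n α) (b : Bool) (u : D.V) (a : α) (i : Fin n)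
    (h : D.node u = Sum.inl i) : (prog D b).pos (u, a) = some i := by
  simp only [prog, h]

theorem pos_inr (D : DBP n α) (b : Bool) (u : D.V) (a : α) (b' : Bool)
    (h : D.node u = Sum.inr b') : (prog D b).pos (u, a) = none := by
  simp only [prog, h]

theorem walk_run (D : DBP n α) (b : Bool) (R : Fin n → α → Prop) (v : D.V)
    (hv : D.node v = Sum.inr b) :
    ∀ (p : List (D.V × α)) (u : D.V), (prog D b).Walk u p v →
      (∀ e ∈ p, ∀ i, (prog D b).pos e = some i → R i e.2) →
      ∃ q, D.Run R u q b ∧ ∀ i, (prog D b).cnt i p = q.count i := by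
  intro p
  induction p with
  | nil =>
    intro u hu _
    have hu' : u = v := hu
    subst hu'
    exact ⟨[], DBP.Run.out u b hv, fun i => by rw [List.count_nil]; exact cnt_nil _ i⟩
  | cons e p ih =>
    intro u hu hR
    obtain ⟨w, a⟩ := e
    have hu' : w = u ∧ (prog D b).Walk ((prog D b).dst (w, a)) p v := hu
    obtain ⟨h1, h2⟩ := hu'
    subst h1
    have hR' : ∀ e ∈ p, ∀ i, (prog D b).pos e = some i → R i e.2 :=
      fun e he => hR e (List.mem_cons_of_mem _ he)
    cases hn : D.node w with
    | inl i =>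
      rw [dst_inl D b w a i hn] at h2
      obtain ⟨q, hq, hc⟩ := ih _ h2 hR'
      refine ⟨i :: q, DBP.Run.ask w i a q b hn
        (hR (w, a) (List.mem_cons_self) i (pos_inl D b w a i hn)) hq, fun j => ?_⟩
      rw [List.count_cons, ← hc j]
      exact cnt_cons_some (prog D b) (w, a) p i j (pos_inl D b w a i hn)
    | inr b' =>
      rw [dst_inr D b w a b' hn] at h2
      obtain ⟨q, hq, hc⟩ := ih _ h2 hR'
      refine ⟨q, hq, fun j => ?_⟩
      rw [← hc j]
      exact cnt_cons_none (prog D b) (w, a) p j (pos_inr D b w a b' hn)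

theorem run_walk (D : DBP n α) (b : Bool) (R : Fin n → α → Prop) (u : D.V) (q : List (Fin n))
    (b' : Bool) (h : D.Run R u q b') (hb : b' = b) :
    ∃ (p : List (D.V × α)) (v : D.V), (prog D b).Walk u p v ∧ D.node v = Sum.inr b ∧
      ∀ e ∈ p, ∀ i, (prog D b).pos e = some i → R i e.2 := by
  induction h with
  | out u b' h => exact ⟨[], u, rfl, by rw [h, hb], by simp⟩
  | ask u i a p b' h ha hr ih =>
    obtain ⟨q, v, h1, h2, h3⟩ := ih hb
    refine ⟨(u, a) :: q, v, ⟨rfl, ?_⟩, h2, ?_⟩
    · rw [dst_inl D b u a i h]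
      exact h1
    · intro e he j hj
      rcases List.mem_cons.mp he with rfl | he
      · rw [pos_inl D b u a i h] at hj
        cases hj
        exact ha
      · exact h3 e he j hj

end Det

/-- TASK DET. -/
theorem det_to_nondet {n : ℕ} {α : Type} [Fintype α] (D : DBP n α) (k : ℕ) (hD : D.ReadK k)
    (b : Bool) :
    ∃ P : NBP n α, Fintype.card P.E = Fintype.card D.V * Fintype.card α ∧ P.ReadK k ∧
      ∀ w, P.Accepts w ↔ D.Outputs w b := by
  refine ⟨Det.prog D b, ?_, ?_, ?_⟩
  · exact Fintype.card_prod D.V α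
  · intro p v hw hv i
    obtain ⟨q, hq, hc⟩ := Det.walk_run D b (fun _ _ => True) v hv p D.start hw
      (fun _ _ _ _ => trivial)
    rw [hc i]
    exact hD q b hq i
  · intro w
    constructor
    · rintro ⟨p, v, hw, hv, hp⟩
      obtain ⟨q, hq, -⟩ := Det.walk_run D b (fun i a => a = w i) v hv p D.start hw
        (fun e he i hi => ((hp e he) i hi).symm)
      exact ⟨q, hq⟩
    · rintro ⟨q, hq⟩
      obtain ⟨p, v, h1, h2, h3⟩ := Det.run_walk D b (fun i a => a = w i) D.start q b hq rfl
      exact ⟨p, v, h1, h2, fun e he i hi => (h3 e he i hi).symm⟩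

theorem Det.run_unique {n : ℕ} {α : Type} (D : DBP n α) (w : Fin n → α) (u : D.V)
    (p : List (Fin n)) (b : Bool) (h : D.Run (fun i a => a = w i) u p b) :
    ∀ (p' : List (Fin n)) (b' : Bool), D.Run (fun i a => a = w i) u p' b' → b = b' := by
  induction h with
  | out u b h =>
    intro p' b' h'
    cases h' with
    | out _ _ h1 => rw [h] at h1; exact Sum.inr_injective h1
    | ask _ i a p _ h1 _ _ => rw [h] at h1; exact absurd h1 (by simp)
  | ask u i a p b h ha hr ih =>
    intro p' b' h'
    cases h' with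
    | out _ _ h1 => rw [h] at h1; exact absurd h1 (by simp)
    | ask _ i' a' p' _ h1 ha' hr' =>
      rw [h] at h1
      have h2 : i = i' := Sum.inl_injective h1
      subst h2
      have h3 : a = w i := ha
      have h4 : a' = w i := ha'
      rw [h4] at hr'
      rw [h3] at ih
      exact ih _ _ hr'

/-- TASK DET (2). -/
theorem outputs_unique {n : ℕ} {α : Type} (D : DBP n α) (w : Fin n → α) (b b' : Bool)
    (h : D.Outputs w b) (h' : D.Outputs w b') : b = b' := by
  obtain ⟨p, hp⟩ := h
  obtain ⟨p', hp'⟩ := h'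
  exact Det.run_unique D w D.start p b hp p' b' hp'

end Pool.Agent.H559R12
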