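import Pool.Agent.H559R12.Defs
import Pool.Agent.H540R2.Lin.Defs

set_option autoImplicit false

namespace Pool.Agent.H559R12

namespace Gram

/-- the nonterminals -/
inductive St where
  | S | T | C
  deriving DecidableEq

/-- all letters -/
def allL : List Let := [.a, .b, .c, .o]

lemma mem_allL (x : Let) : x ∈ allL := by cases x <;> simp [allL]

/-- the rules: `q → u q' v` -/
def tr : St → List (List Let × St × List Let)
  | .S => ([], .T, []) :: allL.map (fun x => ([x], .S, []))
  | .T => ([.a], .C, [.c]) :: allL.map (fun x => ([], .T, [x]))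
  | .C => allL.flatMap (fun x => allL.map (fun y => ([x], .C, [y])))

/-- the final rules -/
def tf : St → List (List Let)
  | .S => []
  | .T => []
  | .C => [.b] :: allL.map (fun x => [.b, x])

/-- the rule `q → u q' v` -/
def toRule (q : St) (d : List Let × St × List Let) : ContextFreeRule Let St :=
  ⟨q, d.1.map Symbol.terminal ++ [Symbol.nonterminal d.2.1] ++ d.2.2.map Symbol.terminal⟩

/-- the rule `q → u` -/
def toFin (q : St) (u : List Let) : ContextFreeRule Let St :=
  ⟨q, u.map Symbol.terminal⟩

/-- all nonterminals -/
def allSt : List St := [.S, .T, .C]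

lemma mem_allSt (q : St) : q ∈ allSt := by cases q <;> simp [allSt]

/-- the grammar -/
def Gr : ContextFreeGrammar Let where
  NT := St
  initial := .S
  rules := (allSt.flatMap (fun q => (tr q).map (toRule q)) ++
    allSt.flatMap (fun q => (tf q).map (toFin q))).toFinset

lemma mem_rules (r : ContextFreeRule Let St) : r ∈ Gr.rules ↔
    (∃ q d, d ∈ tr q ∧ r = toRule q d) ∨ (∃ q u, u ∈ tf q ∧ r = toFin q u) := by
  show r ∈ (allSt.flatMap (fun q => (tr q).map (toRule q)) ++
    allSt.flatMap (fun q => (tf q).map (toFin q))).toFinset ↔ _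
  rw [List.mem_toFinset, List.mem_append, List.mem_flatMap, List.mem_flatMap]
  constructor
  · rintro (⟨q, -, h⟩ | ⟨q, -, h⟩)
    · obtain ⟨d, hd, rfl⟩ := List.mem_map.1 h
      exact Or.inl ⟨q, d, hd, rfl⟩
    · obtain ⟨d, hd, rfl⟩ := List.mem_map.1 h
      exact Or.inr ⟨q, d, hd, rfl⟩
  · rintro (⟨q, d, hd, rfl⟩ | ⟨q, d, hd, rfl⟩)
    · exact Or.inl ⟨q, mem_allSt q, List.mem_map.2 ⟨d, hd, rfl⟩⟩
    · exact Or.inr ⟨q, mem_allSt q, List.mem_map.2 ⟨d, hd, rfl⟩⟩

lemma Gr_linear : Pool.Agent.H540R2.IsLinear Gr := by
  intro r hr
  rcases (mem_rules r).1 hr with ⟨q, d, -, rfl⟩ | ⟨q, u, -, rfl⟩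
  · exact Or.inl ⟨d.1, d.2.2, d.2.1, rfl⟩
  · exact Or.inr ⟨u, rfl⟩

/-- the words generated from a nonterminal -/
inductive Gen : St → List Let → Prop
  | fin {q : St} {u : List Let} : u ∈ tf q → Gen q u
  | step {q : St} {u : List Let} {q' : St} {v : List Let} {w : List Let} :
      (u, q', v) ∈ tr q → Gen q' w → Gen q (u ++ w ++ v)

lemma derives_of_gen {q : St} {w : List Let} (h : Gen q w) :
    Gr.Derives [Symbol.nonterminal q] (w.map Symbol.terminal) := by
  induction h with
  | @fin q u hm =>
    refine ContextFreeGrammar.Produces.single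
      ⟨toFin q u, (mem_rules _).2 (Or.inr ⟨q, u, hm, rfl⟩), ?_⟩
    exact ContextFreeRule.Rewrites.input_output
  | @step q u q' v w hm _ ih =>
    have h1 : Gr.Produces [Symbol.nonterminal q]
        (u.map Symbol.terminal ++ [Symbol.nonterminal q'] ++ v.map Symbol.terminal) :=
      ⟨toRule q (u, q', v), (mem_rules _).2 (Or.inl ⟨q, _, hm, rfl⟩),
        ContextFreeRule.Rewrites.input_output⟩
    have h2 := (ih.append_left (u.map Symbol.terminal)).append_right (v.map Symbol.terminal)
    rw [List.map_append, List.map_append]
    exact h1.trans_derives h2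

lemma uniq (u v : List Let) (q q0 : St) (p s : List (Symbol Let St))
    (h : u.map Symbol.terminal ++ Symbol.nonterminal q :: v.map Symbol.terminal =
      p ++ Symbol.nonterminal q0 :: s) :
    p = u.map Symbol.terminal ∧ q0 = q ∧ s = v.map Symbol.terminal := by
  induction u generalizing p with
  | nil =>
    cases p with
    | nil =>
      simp only [List.map_nil, List.nil_append, List.cons.injEq, Symbol.nonterminal.injEq] at h
      exact ⟨rfl, h.1.symm, h.2.symm⟩
    | cons a p =>
      simp only [List.map_nil, List.nil_append, List.cons_append, List.cons.injEq] at h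
      have h2 : Symbol.nonterminal q0 ∈ v.map (Symbol.terminal (N := St)) := by
        rw [h.2]; simp
      simp at h2
  | cons b u ih =>
    cases p with
    | nil => simp at h
    | cons a p =>
      simp only [List.map_cons, List.cons_append, List.cons.injEq] at h
      obtain ⟨e1, e2, e3⟩ := ih p h.2
      exact ⟨by rw [← h.1, e1]; rfl, e2, e3⟩

lemma app2 {N : Type} (u v u' v' : List Let) (B : N) :
    List.map Symbol.terminal u ++ (List.map Symbol.terminal u' ++ [Symbol.nonterminal B] ++
      List.map Symbol.terminal v') ++ List.map Symbol.terminal v =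
      List.map Symbol.terminal (u ++ u') ++
        Symbol.nonterminal B :: List.map Symbol.terminal (v' ++ v) := by simp

lemma app3 {N : Type} (u x v : List Let) :
    List.map (Symbol.terminal (N := N)) u ++ List.map Symbol.terminal x ++
      List.map Symbol.terminal v = List.map Symbol.terminal (u ++ x ++ v) := by simp

lemma app4 {N : Type} (p t : List (Symbol Let N)) (B : N) (u : List Let)
    (h : List.map Symbol.terminal u = p ++ [Symbol.nonterminal B] ++ t) : False := by
  have h2 : Symbol.nonterminal B ∈ u.map (Symbol.terminal (N := N)) := by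
    rw [h]; simp
  simp at h2

lemma app5 {N : Type} (u v w : List Let) (B : N)
    (h : List.map Symbol.terminal w = List.map Symbol.terminal u ++ Symbol.nonterminal B ::
      List.map Symbol.terminal v) : False := by
  refine app4 (u.map Symbol.terminal) (v.map Symbol.terminal) B w ?_
  rw [h]; simp

lemma gen_of_derives {s : List (Symbol Let St)} {w : List Let}
    (h : Gr.Derives s (w.map Symbol.terminal)) :
    (∀ (u v : List Let) (q : St), s = u.map Symbol.terminal ++ Symbol.nonterminal q ::
      v.map Symbol.terminal → ∃ w', w = u ++ w' ++ v ∧ Gen q w') ∧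
    (∀ u : List Let, s = u.map Symbol.terminal → w = u) := by
  induction h using Relation.ReflTransGen.head_induction_on with
  | refl =>
    constructor
    · intro u v q hs
      exact (app5 _ _ _ _ hs).elim
    · intro u hu
      exact List.map_injective_iff.2 (fun a b h => by injection h) hu
  | @head s s' hp _ ih =>
    obtain ⟨r, hr, hrw⟩ := hp
    obtain ⟨p, t, hs, hs'⟩ := hrw.exists_parts
    constructor
    · intro u v q hs0
      rw [hs0] at hs
      simp only [List.append_assoc, List.singleton_append] at hs
      obtain ⟨e1, e2, e3⟩ := uniq u v q r.input p t hs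
      rcases (mem_rules r).1 hr with ⟨q1, ⟨u', q', v'⟩, hm, rfl⟩ | ⟨q1, x, hm, rfl⟩
      · have e2' : q1 = q := e2
        subst e2'
        obtain ⟨w', hw', hg⟩ := ih.1 (u ++ u') (v' ++ v) q' (by
          rw [hs', e1, e3]
          exact app2 _ _ _ _ _)
        refine ⟨u' ++ w' ++ v', ?_, Gen.step hm hg⟩
        rw [hw']
        simp
      · have e2' : q1 = q := e2
        subst e2'
        have := ih.2 (u ++ x ++ v) (by rw [hs', e1, e3]; exact app3 _ _ _)
        exact ⟨x, this, Gen.fin hm⟩
    · intro u hu
      rw [hu] at hs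
      exact (app4 _ _ _ _ hs).elim

theorem mem_language_iff_gen (w : List Let) : w ∈ Gr.language ↔ Gen .S w := by
  rw [ContextFreeGrammar.mem_language_iff]
  constructor
  · intro h
    obtain ⟨w', hw', hg⟩ := (gen_of_derives h).1 [] [] .S rfl
    rw [hw']
    simpa using hg
  · exact fun h => derives_of_gen h

/-- the languages of the nonterminals -/
def Pp : St → List Let → Prop
  | .C, w => ∃ x y : List Let, w = x ++ .b :: y ∧ (y.length = x.length ∨ y.length = x.length + 1)
  | .T, w => ∃ x y v : List Let, w = .a :: (x ++ .b :: y) ++ .c :: v ∧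
      (y.length = x.length ∨ y.length = x.length + 1)
  | .S, w => ∃ u x y v : List Let, w = u ++ (.a :: (x ++ .b :: y) ++ .c :: v) ∧
      (y.length = x.length ∨ y.length = x.length + 1)

lemma pp_of_gen {q : St} {w : List Let} (h : Gen q w) : Pp q w := by
  induction h with
  | @fin q u hm =>
    cases q with
    | S => simp [tf] at hm
    | T => simp [tf] at hm
    | C =>
      simp only [tf, List.mem_cons, List.mem_map] at hm
      rcases hm with rfl | ⟨x, -, rfl⟩
      · exact ⟨[], [], rfl, Or.inl rfl⟩
      · exact ⟨[], [x], rfl, Or.inr rfl⟩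
  | @step q u q' v w hm _ ih =>
    cases q with
    | S =>
      simp only [tr, List.mem_cons, List.mem_map, Prod.mk.injEq] at hm
      rcases hm with ⟨rfl, rfl, rfl⟩ | ⟨z, -, rfl, rfl, rfl⟩
      · obtain ⟨x, y, v, rfl, h⟩ := ih
        exact ⟨[], x, y, v, by simp, h⟩
      · obtain ⟨u, x, y, v, rfl, h⟩ := ih
        exact ⟨z :: u, x, y, v, by simp, h⟩
    | T =>
      simp only [tr, List.mem_cons, List.mem_map, Prod.mk.injEq] at hm
      rcases hm with ⟨rfl, rfl, rfl⟩ | ⟨z, -, rfl, rfl, rfl⟩
      · obtain ⟨x, y, rfl, h⟩ := ih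
        exact ⟨x, y, [], by simp, h⟩
      · obtain ⟨x, y, v, rfl, h⟩ := ih
        exact ⟨x, y, v ++ [z], by simp, h⟩
    | C =>
      simp only [tr, List.mem_flatMap, List.mem_map, Prod.mk.injEq] at hm
      obtain ⟨z, -, z', -, rfl, rfl, rfl⟩ := hm
      obtain ⟨x, y, rfl, h⟩ := ih
      exact ⟨z :: x, y ++ [z'], by simp, by simpa using h⟩

lemma gen_C (x : List Let) : ∀ y : List Let,
    (y.length = x.length ∨ y.length = x.length + 1) → Gen .C (x ++ .b :: y) := by
  induction x with
  | nil =>
    intro y hy
    rcases hy with hy | hy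
    · have : y = [] := List.length_eq_zero_iff.1 hy
      subst this
      exact Gen.fin (by simp [tf])
    · obtain ⟨z, rfl⟩ := List.length_eq_one_iff.1 hy
      exact Gen.fin (by simp [tf, mem_allL])
  | cons z x ih =>
    intro y hy
    rcases List.eq_nil_or_concat y with rfl | ⟨y', z', rfl⟩
    · simp at hy
    · have h1 : Gen .C (x ++ .b :: y') := ih y' (by simpa using hy)
      have h2 := Gen.step (q := .C) (u := [z]) (v := [z']) (by
        simp only [tr, List.mem_flatMap, List.mem_map, Prod.mk.injEq]
        exact ⟨z, mem_allL z, z', mem_allL z', rfl, trivial, rfl⟩) h1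
      simpa using h2

lemma gen_T (x y : List Let) (h : y.length = x.length ∨ y.length = x.length + 1)
    (v : List Let) : Gen .T (.a :: (x ++ .b :: y) ++ .c :: v) := by
  induction v using List.reverseRecOn with
  | nil =>
    have h2 := Gen.step (q := .T) (u := [.a]) (v := [.c]) (by simp [tr]) (gen_C x y h)
    simpa using h2
  | append_singleton v z ih =>
    have h2 := Gen.step (q := .T) (u := []) (v := [z]) (by simp [tr, mem_allL]) ih
    simpa using h2

lemma gen_S (u x y v : List Let) (h : y.length = x.length ∨ y.length = x.length + 1) :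
    Gen .S (u ++ (.a :: (x ++ .b :: y) ++ .c :: v)) := by
  induction u with
  | nil =>
    have h2 := Gen.step (q := .S) (u := []) (v := []) (by simp [tr]) (gen_T x y h v)
    simpa using h2
  | cons z u ih =>
    have h2 := Gen.step (q := .S) (u := [z]) (v := []) (by simp [tr, mem_allL]) ih
    simpa using h2

lemma inL_iff {n : ℕ} (w : Fin n → Let) : InL w ↔ Pp .S (List.ofFn w) := by
  constructor
  · rintro ⟨i, j, l, hij, hjl, hm, ha, hb, hc⟩
    set L := List.ofFn w with hL
    have hlen : L.length = n := by simp [hL]
    have hget : ∀ k : Fin n, L[(k : ℕ)]'(by rw [hlen]; exact k.2) = w k := by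
      intro k
      simp [hL]
    have cut : ∀ (M : List Let) (k : ℕ) (hk : k < M.length),
        M = M.take k ++ M[k] :: M.drop (k + 1) := by
      intro M k hk
      rw [← List.drop_eq_getElem_cons hk, List.take_append_drop]
    have hij' : (i : ℕ) < j := hij
    have hjl' : (j : ℕ) < l := hjl
    have hln : (l : ℕ) < n := l.2
    have c1 := cut L i (by omega)
    rw [hget i, ha] at c1
    have c2 := cut (L.drop (i + 1)) (j - (i + 1)) (by rw [List.length_drop]; omega)
    have g2 : (L.drop (i + 1))[(j : ℕ) - (i + 1)]'(by rw [List.length_drop]; omega) = Let.b := by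
      rw [List.getElem_drop, ← hb, ← hget j]
      congr 1
      omega
    rw [g2, List.drop_drop] at c2
    have e2 : (i : ℕ) + 1 + (j - (i + 1) + 1) = j + 1 := by omega
    rw [e2] at c2
    have c3 := cut (L.drop (j + 1)) (l - (j + 1)) (by rw [List.length_drop]; omega)
    have g3 : (L.drop (j + 1))[(l : ℕ) - (j + 1)]'(by rw [List.length_drop]; omega) = Let.c := by
      rw [List.getElem_drop, ← hc, ← hget l]
      congr 1
      omega
    rw [g3] at c3
    refine ⟨L.take i, (L.drop (i + 1)).take (j - (i + 1)), (L.drop (j + 1)).take (l - (j + 1)),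
      (L.drop (j + 1)).drop (l - (j + 1) + 1), ?_, ?_⟩
    · conv_lhs => rw [c1, c2, c3]
      simp
    · simp only [List.length_take, List.length_drop]
      omega
  · rintro ⟨u, x, y, v, hw, hxy⟩
    have hlen : n = u.length + (1 + (x.length + (1 + y.length)) + (1 + v.length)) := by
      have := congrArg List.length hw
      simp at this
      omega
    have hget : ∀ (k : ℕ) (hk : k < n), some (w ⟨k, hk⟩) = (u ++
        (Let.a :: (x ++ Let.b :: y) ++ Let.c :: v))[k]? := by
      intro k hk
      rw [← hw, List.getElem?_ofFn]
      simp [hk]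
    have h1 := hget u.length (by omega)
    have h2 := hget (u.length + (1 + x.length)) (by omega)
    have h3 := hget (u.length + (1 + (x.length + (1 + y.length)))) (by omega)
    refine ⟨⟨u.length, by omega⟩, ⟨u.length + (1 + x.length), by omega⟩,
      ⟨u.length + (1 + (x.length + (1 + y.length))), by omega⟩, ?_, ?_, ?_, ?_, ?_, ?_⟩
    · rw [Fin.lt_def]
      simp only
      omega
    · rw [Fin.lt_def]
      simp only
      omega
    · simp only
      omega
    · rw [List.getElem?_append_right le_rfl] at h1
      simpa using h1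
    · rw [List.getElem?_append_right (by omega)] at h2
      have e : u.length + (1 + x.length) - u.length = x.length + 1 := by omega
      rw [e, List.cons_append, List.getElem?_cons_succ, List.append_assoc,
        List.getElem?_append_right le_rfl] at h2
      simpa using h2
    · rw [List.getElem?_append_right (by omega)] at h3
      have e : u.length + (1 + (x.length + (1 + y.length))) - u.length =
        (x.length + (1 + y.length)) + 1 := by omega
      rw [e, List.cons_append, List.getElem?_cons_succ,
        List.getElem?_append_right (by simp)] at h3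
      have e' : x.length + (1 + y.length) - (x ++ Let.b :: y).length = 0 := by
        simp
        omega
      rw [e'] at h3
      simpa using h3

end Gram

/-- TASK GRAM. -/
theorem exists_grammar : ∃ G : ContextFreeGrammar Let, Pool.Agent.H540R2.IsLinear G ∧
    ∀ (n : ℕ) (w : Fin n → Let), List.ofFn w ∈ G.language ↔ InL w := by
  refine ⟨Gram.Gr, Gram.Gr_linear, fun n w => ?_⟩
  rw [Gram.mem_language_iff_gen, Gram.inL_iff]
  constructor
  · exact fun h => Gram.pp_of_gen h
  · rintro ⟨u, x, y, v, hw, h⟩
    rw [hw]
    exact Gram.gen_S u x y v h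

end Pool.Agent.H559R12
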