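import Pool.Agent.H559R12.Word

set_option autoImplicit false

namespace Pool.Agent.H559R12

open Finset

open Classical in
theorem card_cross {h : ℕ} (A B : Finset (Fin h)) :
    (univ.filter (fun d : (Fin h × Fin h) × Bool =>
      (d.1.1 ∈ A ∧ d.1.2 ∈ B) → d.2 = true)).card = 2 * h ^ 2 - A.card * B.card := by
  have h1 : (univ.filter (fun d : (Fin h × Fin h) × Bool =>
      ¬ ((d.1.1 ∈ A ∧ d.1.2 ∈ B) → d.2 = true))) = (A ×ˢ B) ×ˢ {false} := by
    ext ⟨⟨p, q⟩, t⟩
    cases t <;> simp
  have h2 := Finset.card_filter_add_card_filter_not (s := (univ : Finset ((Fin h × Fin h) × Bool)))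
    (fun d => (d.1.1 ∈ A ∧ d.1.2 ∈ B) → d.2 = true)
  rw [h1] at h2
  simp only [Finset.card_product, Finset.card_singleton, mul_one, Finset.card_univ,
    Fintype.card_prod, Fintype.card_fin, Fintype.card_bool] at h2
  have h3 : 2 * h ^ 2 = h * h * 2 := by ring
  omega

open Classical in
/-- TASK PER. -/
theorem fiber_count {n m h r : ℕ} (X Y : Fin h → Fin n) (hX : ∀ x, ((X x : Fin n) : ℕ) = x)
    (hY : ∀ y, ((Y y : Fin n) : ℕ) = h + y) (F : Set (Fin n → Let))
    (S : Fin r → Finset (Fin n)) (side : Fin r → Bool)
    (hmix : ∀ w w' w'' : Fin n → Let, w ∈ F → w' ∈ F →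
      (∀ j, ∀ i ∈ S j, w'' i = if side j = true then w i else w' i) → ¬ InL w'') :
    (univ.filter (fun x : Geo m h × (Fin m → Bool) => Good x.1 ∧ word n x.1 x.2 ∈ F)).card ≤
      (2 * h ^ 2 - (univ.filter (fun x : Fin h => ∀ j, X x ∈ S j → side j = true)).card *
        (univ.filter (fun y : Fin h => ∀ j, Y y ∈ S j → side j = false)).card) ^ m := by
  set A := univ.filter (fun x : Fin h => ∀ j, X x ∈ S j → side j = true) with hA
  set B := univ.filter (fun y : Fin h => ∀ j, Y y ∈ S j → side j = false) with hB
  have memA : ∀ x, x ∈ A ↔ ∀ j, X x ∈ S j → side j = true := by intro x; simp [hA]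
  have memB : ∀ x, x ∈ B ↔ ∀ j, Y x ∈ S j → side j = false := by intro x; simp [hB]
  -- one step: two state vectors in the same class that agree on the non-crossing gadgets
  have key : ∀ (ω : Geo m h) (σ σ' : Fin m → Bool), Good ω → word n ω σ ∈ F →
      word n ω σ' ∈ F → (∀ g, ¬ ((ω g).1 ∈ A ∧ (ω g).2 ∈ B) → σ g = σ' g) →
      ∀ g, σ g = true → σ' g = false → False := by
    intro ω σ σ' hω hF hF' hag g hg hg'
    have hh : 1 ≤ h := by have := (ω g).1.isLt; omega
    have hn : 2 * h ≤ n := by
      have h1 := (Y ⟨h - 1, by omega⟩).isLt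
      rw [hY] at h1
      simp only at h1
      omega
    have hcr : (ω g).1 ∈ A ∧ (ω g).2 ∈ B := by
      by_contra hcon
      have := hag g hcon
      rw [hg, hg'] at this
      exact Bool.noConfusion this
    -- the mixed positions
    have hmixed : ∀ (i : Fin n) (j j' : Fin r), i ∈ S j → i ∈ S j' → side j = true →
        side j' = false → word n ω σ i = word n ω σ' i := by
      intro i j j' hj hj' hs hs'
      apply word_congr
      intro g' hg''
      by_contra hne
      have hcr' : (ω g').1 ∈ A ∧ (ω g').2 ∈ B := by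
        by_contra hcon
        exact hne (hag g' hcon)
      rcases hg'' with h1 | h1
      · have hi : i = X (ω g').1 := Fin.ext (by rw [hX, h1])
        have := (memA _).1 hcr'.1 j' (hi ▸ hj')
        rw [hs'] at this
        exact Bool.noConfusion this
      · have hi : i = Y (ω g').2 := Fin.ext (by rw [hY, h1])
        have := (memB _).1 hcr'.2 j (hi ▸ hj)
        rw [hs] at this
        exact Bool.noConfusion this
    set w'' : Fin n → Let := fun i =>
      if (i : ℕ) < h then (if ∃ j, i ∈ S j ∧ side j = false then word n ω σ' i else word n ω σ i)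
      else (if ∃ j, i ∈ S j ∧ side j = true then word n ω σ i else word n ω σ' i) with hw''
    refine hmix (word n ω σ) (word n ω σ') w'' hF hF' ?_ ?_
    · intro j i hi
      simp only [hw'']
      cases hs : side j
      · simp only [Bool.false_eq_true, if_false]
        split_ifs with h1 h2 h3
        · rfl
        · exact absurd ⟨j, hi, hs⟩ h2
        · obtain ⟨j', hj', hs'⟩ := h3
          exact hmixed i j' j hj' hi hs' hs
        · rfl
      · simp only [if_true]
        split_ifs with h1 h2 h3
        · obtain ⟨j', hj', hs'⟩ := h2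
          exact (hmixed i j j' hi hj' hs hs').symm
        · rfl
        · rfl
        · exact absurd ⟨j, hi, hs⟩ h3
    · apply mix_InL hn ω hω σ σ' g hg hg' w''
      · intro i hi
        have hlt : (i : ℕ) < h := by rw [hi]; exact (ω g).1.isLt
        have hiX : i = X (ω g).1 := Fin.ext (by rw [hX, hi])
        simp only [hw'']
        rw [if_pos hlt, if_neg]
        rintro ⟨j, hj, hs⟩
        have := (memA _).1 hcr.1 j (hiX ▸ hj)
        rw [hs] at this
        exact Bool.noConfusion this
      · intro i hi
        have hlt : ¬ (i : ℕ) < h := by rw [hi]; omega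
        have hiY : i = Y (ω g).2 := Fin.ext (by rw [hY, hi])
        simp only [hw'']
        rw [if_neg hlt, if_neg]
        rintro ⟨j, hj, hs⟩
        have := (memB _).1 hcr.2 j (hiY ▸ hj)
        rw [hs] at this
        exact Bool.noConfusion this
      · intro i _
        simp only [hw'']
        split_ifs
        · exact Or.inr rfl
        · exact Or.inl rfl
        · exact Or.inl rfl
        · exact Or.inr rfl
  -- the injection
  rw [← card_cross A B]
  set Dset := univ.filter (fun d : (Fin h × Fin h) × Bool =>
      (d.1.1 ∈ A ∧ d.1.2 ∈ B) → d.2 = true) with hDset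
  have hpi : Dset.card ^ m = (Fintype.piFinset (fun _ : Fin m => Dset)).card := by
    rw [Fintype.card_piFinset]
    simp
  rw [hpi]
  apply Finset.card_le_card_of_injOn
    (fun x => fun g => (x.1 g, if (x.1 g).1 ∈ A ∧ (x.1 g).2 ∈ B then true else x.2 g))
  · intro x _
    simp only [Finset.mem_coe, Fintype.mem_piFinset, hDset, mem_filter, mem_univ, true_and]
    intro g hg
    rw [if_pos hg]
  · rintro ⟨ω, σ⟩ hx ⟨ω', σ'⟩ hx' heq
    simp only [Finset.mem_coe, mem_filter, mem_univ, true_and] at hx hx'
    have hωω : ω = ω' := by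
      funext g
      exact (Prod.mk.inj (congrFun heq g)).1
    subst hωω
    have hag : ∀ g, ¬ ((ω g).1 ∈ A ∧ (ω g).2 ∈ B) → σ g = σ' g := by
      intro g hg
      have h1 := (Prod.mk.inj (congrFun heq g)).2
      simp only [if_neg hg] at h1
      exact h1
    have hσ : σ = σ' := by
      funext g
      by_contra hne
      cases h1 : σ g <;> cases h2 : σ' g
      · rw [h1, h2] at hne; exact hne rfl
      · exact key ω σ' σ hx.1 hx'.2 hx.2 (fun g hg => (hag g hg).symm) g h2 h1
      · exact key ω σ σ' hx.1 hx.2 hx'.2 hag g h1 h2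
      · rw [h1, h2] at hne; exact hne rfl
    rw [hσ]

end Pool.Agent.H559R12
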