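import Pool.Agent.H559R12.Defs

set_option autoImplicit false

namespace Pool.Agent.H559R12

namespace Up

/-- pairs of positions at distance at least two -/
abbrev Q (n : ℕ) : Type := {z : Fin n × Fin n // (z.1 : ℕ) + 2 ≤ z.2}

/-- nodes -/
inductive UV (n : ℕ) : Type
  | s : UV n
  | x : Q n → UV n
  | y : Q n → UV n
  | t : UV n

/-- kinds of edges -/
inductive K : Type
  | e0 : K
  | e1 : K
  | e2 : K
  deriving DecidableEq

instance : Fintype K := ⟨{K.e0, K.e1, K.e2}, by intro x; cases x <;> simp⟩

/-- middle position -/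
def md {n : ℕ} (q : Q n) : Fin n := ⟨((q.1.1 : ℕ) + q.1.2) / 2, by
  have h1 := q.2
  have h2 := q.1.2.isLt
  omega⟩

/-- the program -/
def prog (n : ℕ) : NBP n Let where
  V := UV n
  E := Q n × K
  finE := inferInstance
  src := fun e => match e with
    | (_, .e0) => .s
    | (q, .e1) => .x q
    | (q, .e2) => .y q
  dst := fun e => match e with
    | (q, .e0) => .x q
    | (q, .e1) => .y q
    | (_, .e2) => .t
  pos := fun e => match e with
    | (q, .e0) => some q.1.1
    | (q, .e1) => some (md q)
    | (q, .e2) => some q.1.2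
  ok := fun e l => match e with
    | (_, .e0) => l = Let.a
    | (_, .e1) => l = Let.b
    | (_, .e2) => l = Let.c
  start := .s
  acc := fun v => v = .t

theorem walk_t {n : ℕ} (p : List (Q n × K)) (h : (prog n).Walk UV.t p UV.t) : p = [] := by
  cases p with
  | nil => rfl
  | cons e p =>
    obtain ⟨q, j⟩ := e
    have h1 : (prog n).src (q, j) = UV.t := h.1
    cases j <;> cases h1

theorem walk_y {n : ℕ} (q : Q n) (p : List (Q n × K)) (h : (prog n).Walk (UV.y q) p UV.t) :
    p = [(q, K.e2)] := by
  cases p with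
  | nil =>
    have h0 : UV.y q = UV.t := h
    cases h0
  | cons e p =>
    obtain ⟨q', j⟩ := e
    have h1 : (prog n).src (q', j) = UV.y q := h.1
    cases j
    · cases h1
    · cases h1
    · have hq : q' = q := UV.y.inj h1
      subst hq
      have := walk_t p h.2
      rw [this]

theorem walk_x {n : ℕ} (q : Q n) (p : List (Q n × K)) (h : (prog n).Walk (UV.x q) p UV.t) :
    p = [(q, K.e1), (q, K.e2)] := by
  cases p with
  | nil =>
    have h0 : UV.x q = UV.t := h
    cases h0
  | cons e p =>
    obtain ⟨q', j⟩ := e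
    have h1 : (prog n).src (q', j) = UV.x q := h.1
    cases j
    · cases h1
    · have hq : q' = q := UV.x.inj h1
      subst hq
      have := walk_y q' p h.2
      rw [this]
    · cases h1

theorem walk_s {n : ℕ} (p : List (Q n × K)) (h : (prog n).Walk UV.s p UV.t) :
    ∃ q, p = [(q, K.e0), (q, K.e1), (q, K.e2)] := by
  cases p with
  | nil =>
    have h0 : (UV.s : UV n) = UV.t := h
    cases h0
  | cons e p =>
    obtain ⟨q', j⟩ := e
    have h1 : (prog n).src (q', j) = UV.s := h.1
    cases j
    · have := walk_x q' p h.2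
      exact ⟨q', by rw [this]⟩
    · cases h1
    · cases h1

theorem walk_q {n : ℕ} (q : Q n) :
    (prog n).Walk UV.s [(q, K.e0), (q, K.e1), (q, K.e2)] UV.t :=
  ⟨rfl, rfl, rfl, rfl⟩

end Up

open Classical in
theorem cnt3 {n : ℕ} {α : Type} (P : NBP n α) (a b c : P.E) (i : Fin n) :
    P.cnt i [a, b, c] = (if P.pos a = some i then 1 else 0) + (if P.pos b = some i then 1 else 0) +
      (if P.pos c = some i then 1 else 0) := by
  unfold NBP.cnt
  simp only [List.countP_cons, List.countP_nil, decide_eq_true_eq]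
  omega

theorem mem3 {β : Type} (a b c e : β) : e ∈ [a, b, c] ↔ e = a ∨ e = b ∨ e = c := by
  simp

/-- TASK UP. -/
theorem upper (n : ℕ) : ∃ P : NBP n Let, P.ReadK 1 ∧ Fintype.card P.E ≤ 3 * n ^ 2 ∧
    ∀ w, P.Accepts w ↔ InL w := by
  classical
  refine ⟨Up.prog n, ?_, ?_, ?_⟩
  · intro p v hw hv i
    have hv' : v = Up.UV.t := hv
    subst hv'
    obtain ⟨q, hp⟩ := Up.walk_s p hw
    have hq := q.2
    subst hp
    refine le_trans (le_of_eq (cnt3 (Up.prog n) (q, Up.K.e0) (q, Up.K.e1) (q, Up.K.e2) i)) ?_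
    have e0 : (Up.prog n).pos (q, Up.K.e0) = some q.1.1 := rfl
    have e1 : (Up.prog n).pos (q, Up.K.e1) = some (Up.md q) := rfl
    have e2 : (Up.prog n).pos (q, Up.K.e2) = some q.1.2 := rfl
    have m1 : ((Up.md q : Fin n) : ℕ) = ((q.1.1 : ℕ) + q.1.2) / 2 := rfl
    rw [e0, e1, e2]
    simp only [Option.some.injEq]
    by_cases h1 : q.1.1 = i
    · have h2 : Up.md q ≠ i := by
        intro h
        have := congrArg Fin.val (h.trans h1.symm)
        omega
      have h3 : q.1.2 ≠ i := by
        intro h
        have := congrArg Fin.val (h.trans h1.symm)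
        omega
      simp [h1, h2, h3]
    · by_cases h2 : Up.md q = i
      · have h3 : q.1.2 ≠ i := by
          intro h
          have := congrArg Fin.val (h.trans h2.symm)
          omega
        simp [h1, h2, h3]
      · simp only [h1, h2, if_false, zero_add, add_zero]
        split_ifs <;> omega
  · show Fintype.card (Up.Q n × Up.K) ≤ 3 * n ^ 2
    have hK : Fintype.card Up.K = 3 := rfl
    rw [Fintype.card_prod, hK]
    have hQ : Fintype.card (Up.Q n) ≤ n * n := by
      calc Fintype.card (Up.Q n) ≤ Fintype.card (Fin n × Fin n) := Fintype.card_subtype_le _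
        _ = n * n := by simp
    nlinarith
  · intro w
    constructor
    · rintro ⟨p, v, hw, hv, hp⟩
      have hv' : v = Up.UV.t := hv
      subst hv'
      obtain ⟨q, hpq⟩ := Up.walk_s p hw
      have hq := q.2
      subst hpq
      have h0 : w q.1.1 = Let.a := hp (q, Up.K.e0) ((mem3 _ _ _ _).2 (Or.inl rfl)) q.1.1 rfl
      have h1 : w (Up.md q) = Let.b := hp (q, Up.K.e1) ((mem3 _ _ _ _).2 (Or.inr (Or.inl rfl))) (Up.md q) rfl
      have h2 : w q.1.2 = Let.c := hp (q, Up.K.e2) ((mem3 _ _ _ _).2 (Or.inr (Or.inr rfl))) q.1.2 rfl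
      have m1 : ((Up.md q : Fin n) : ℕ) = ((q.1.1 : ℕ) + q.1.2) / 2 := rfl
      refine ⟨q.1.1, Up.md q, q.1.2, ?_, ?_, m1, h0, h1, h2⟩
      · rw [Fin.lt_def]; omega
      · rw [Fin.lt_def]; omega
    · rintro ⟨i, j, l, hij, hjl, hj, ha, hb, hc⟩
      rw [Fin.lt_def] at hij hjl
      have hq : (i : ℕ) + 2 ≤ l := by omega
      set q : Up.Q n := ⟨(i, l), hq⟩ with hqdef
      have hmd : Up.md q = j := Fin.ext hj.symm
      refine ⟨_, _, Up.walk_q q, rfl, ?_⟩
      intro e he
      rcases (mem3 _ _ _ _).1 he with rfl | rfl | rfl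
      · intro i' hi'
        have : i = i' := Option.some.inj hi'
        rw [← this]
        exact ha
      · intro i' hi'
        have : Up.md q = i' := Option.some.inj hi'
        rw [← this, hmd]
        exact hb
      · intro i' hi'
        have : l = i' := Option.some.inj hi'
        rw [← this]
        exact hc

end Pool.Agent.H559R12
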