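import Pool.Agent.H559R12.Cov
import Pool.Agent.H559R12.Avg
import Pool.Agent.H559R12.Bad
import Pool.Agent.H559R12.Per
import Pool.Agent.H559R12.Ari
import Pool.Agent.H559R12.Gram
import Pool.Agent.H559R12.Up
import Pool.Agent.H559R12.Det

set_option autoImplicit false

namespace Pool.Agent.H559R12

open Finset

open Classical in
theorem core (n h k m : ℕ) (hk : 1 ≤ k) (hn1 : 2 * h ≤ n) (hn2 : n ≤ 3 * h) (hhk : 6 * k ≤ h)
    (hm : 20 * m ^ 3 ≤ h) (P : NBP n Let) (hP : P.ReadK k)
    (hacc : ∀ w, P.Accepts w ↔ ¬ InL w) :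
    m ≤ 152 * (4 ^ k * k ^ 2 * (Nat.log 2 (Fintype.card P.E) + 1)) := by
  have hh : 1 ≤ h := by omega
  set s := h / (6 * k) with hs_def
  have hs : 1 ≤ s := (Nat.one_le_div_iff (by omega)).2 hhk
  -- s * k * n ≤ h^2 / 2
  have hs6 : s * (6 * k) ≤ h := Nat.div_mul_le_self h (6 * k)
  have hskn : 2 * (s * (k * n)) ≤ h ^ 2 := by
    calc 2 * (s * (k * n)) ≤ 2 * (s * (k * (3 * h))) := by gcongr
      _ = (s * (6 * k)) * h := by ring
      _ ≤ h * h := Nat.mul_le_mul_right _ hs6
      _ = h ^ 2 := by ring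
  -- number of segments
  have hM : k * n / s ≤ 36 * k ^ 2 := by
    have h12 : h < (s + 1) * (6 * k) := by
      have := Nat.lt_div_mul_add (a := h) (b := 6 * k) (by omega)
      calc h < h / (6 * k) * (6 * k) + 6 * k := this
        _ = (s + 1) * (6 * k) := by rw [← hs_def]; ring
    have h2 : h ≤ s * (12 * k) := by nlinarith
    apply Nat.div_le_of_le_mul
    calc k * n ≤ k * (3 * h) := by gcongr
      _ ≤ k * (3 * (s * (12 * k))) := by gcongr
      _ = s * (36 * k ^ 2) := by ring
  obtain ⟨F, hF1, hF2⟩ := P.cover k s hs hP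
  set X : Fin h → Fin n := fun x => ⟨x, by omega⟩ with hXdef
  set Y : Fin h → Fin n := fun y => ⟨h + y, by omega⟩ with hYdef
  have hXinj : Function.Injective X := by
    intro x y hxy
    simp only [hXdef, Fin.mk.injEq] at hxy
    exact Fin.ext hxy
  have hYinj : Function.Injective Y := by
    intro x y hxy
    simp only [hYdef, Fin.mk.injEq] at hxy
    exact Fin.ext (by omega)
  -- the good pairs
  set G : Finset (Geo m h × (Fin m → Bool)) := univ.filter (fun x => Good x.1) with hG
  have hGcard : (2 * h ^ 2) ^ m ≤ 2 * G.card := by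
    have hbad := bad_count m h
    have hprod : G = (univ.filter (fun ω : Geo m h => Good ω)) ×ˢ (univ : Finset (Fin m → Bool)) := by
      ext x
      simp [hG]
    have hsum := Finset.card_filter_add_card_filter_not (s := (univ : Finset (Geo m h))) (fun ω => Good ω)
    have htot : (univ : Finset (Geo m h)).card = (h ^ 2) ^ m := by
      simp [Geo, sq]
    rw [htot] at hsum
    have hb2 : 2 * (univ.filter (fun ω : Geo m h => ¬ Good ω)).card ≤ (h ^ 2) ^ m := by
      have h1 : (univ.filter (fun ω : Geo m h => ¬ Good ω)).card * h * 2 ≤ h * (h ^ 2) ^ m := by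
        calc (univ.filter (fun ω : Geo m h => ¬ Good ω)).card * h * 2
            ≤ 10 * m ^ 3 * (h ^ 2) ^ m * 2 := Nat.mul_le_mul_right _ hbad
          _ = (20 * m ^ 3) * (h ^ 2) ^ m := by ring
          _ ≤ h * (h ^ 2) ^ m := Nat.mul_le_mul_right _ hm
      have h2 : h * (2 * (univ.filter (fun ω : Geo m h => ¬ Good ω)).card) ≤ h * (h ^ 2) ^ m := by
        calc _ = (univ.filter (fun ω : Geo m h => ¬ Good ω)).card * h * 2 := by ring
          _ ≤ _ := h1
      exact Nat.le_of_mul_le_mul_left h2 (by omega)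
    rw [hprod, Finset.card_product]
    have h2m : (univ : Finset (Fin m → Bool)).card = 2 ^ m := by simp
    rw [h2m, mul_pow]
    have : (h ^ 2) ^ m ≤ 2 * (univ.filter (fun ω : Geo m h => Good ω)).card := by omega
    calc 2 ^ m * (h ^ 2) ^ m ≤ 2 ^ m * (2 * (univ.filter (fun ω : Geo m h => Good ω)).card) := by
          gcongr
      _ = _ := by ring
  -- every good pair is in some class
  have hcl : ∀ x ∈ G, ∃ τ, word n x.1 x.2 ∈ F τ := by
    intro x hx
    simp only [hG, mem_filter, mem_univ, true_and] at hx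
    exact hF1 _ ((hacc _).2 (good_not_InL x.1 hx x.2))
  choose! τ hτ using hcl
  set N := Fintype.card ((Fin (k * n / s) → Option P.E) × Option P.E) with hN
  have hNle : N ≤ (Fintype.card P.E + 1) ^ (36 * k ^ 2 + 1) := by
    rw [hN]
    simp only [Fintype.card_prod, Fintype.card_fun, Fintype.card_option, Fintype.card_fin]
    rw [pow_succ]
    exact Nat.mul_le_mul_right _ (Nat.pow_le_pow_right (by omega) hM)
  -- pigeonhole
  obtain ⟨t, ht⟩ : ∃ t, G.card ≤ N * (G.filter (fun x => τ x = t)).card := by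
    by_contra hcon
    push Not at hcon
    have hsum : G.card = ∑ t, (G.filter (fun x => τ x = t)).card :=
      Finset.card_eq_sum_card_fiberwise (fun x _ => Finset.mem_univ _)
    have hNpos : 0 < N := by
      rw [hN]
      exact Fintype.card_pos_iff.2 ⟨(fun _ => none, none)⟩
    have h1 : N * G.card < N * G.card := by
      calc N * G.card = N * ∑ t, (G.filter (fun x => τ x = t)).card := by rw [← hsum]
        _ = ∑ t, N * (G.filter (fun x => τ x = t)).card := Finset.mul_sum _ _ _
        _ < ∑ _t : (Fin (k * n / s) → Option P.E) × Option P.E, G.card := by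
            apply Finset.sum_lt_sum_of_nonempty
            · exact ⟨(fun _ => none, none), Finset.mem_univ _⟩
            · intro t _
              exact hcon t
        _ = N * G.card := by
            rw [Finset.sum_const, smul_eq_mul]
            rfl
    exact lt_irrefl _ h1
  obtain ⟨r, S, hS1, hS2, hS3⟩ := hF2 t
  obtain ⟨side, hside⟩ := exists_side S hS1 hS2 X Y hXinj hYinj
  set D := (univ.filter (fun x : Fin h => ∀ j, X x ∈ S j → side j = true)).card *
        (univ.filter (fun y : Fin h => ∀ j, Y y ∈ S j → side j = false)).card with hD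
  have hfib := fiber_count (m := m) X Y (fun x => rfl) (fun y => rfl) (F t) S side
    (fun w w' w'' hw hw' h => (hacc w'').1 (hS3 side w w' w'' hw hw' h))
  rw [← hD] at hfib
  have hsub : (G.filter (fun x => τ x = t)).card ≤ (2 * h ^ 2 - D) ^ m := by
    refine le_trans (Finset.card_le_card ?_) hfib
    intro x hx
    simp only [hG, mem_filter, mem_univ, true_and] at hx ⊢
    refine ⟨hx.1, ?_⟩
    have := hτ x (by simp [hG, hx.1])
    rwa [hx.2] at this
  have hDle : D ≤ h ^ 2 := by
    calc D ≤ (univ : Finset (Fin h)).card * (univ : Finset (Fin h)).card := by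
          rw [hD]
          exact Nat.mul_le_mul (Finset.card_le_univ _) (Finset.card_le_univ _)
      _ = h ^ 2 := by simp [sq]
  refine arith m h k (Fintype.card P.E) D hh hk ?_ hDle ?_
  · omega
  · calc (2 * h ^ 2) ^ m ≤ 2 * G.card := hGcard
      _ ≤ 2 * (N * (2 * h ^ 2 - D) ^ m) := by
          refine Nat.mul_le_mul_left _ (ht.trans (Nat.mul_le_mul_left _ hsub))
      _ ≤ _ := by gcongr

theorem lower (n k : ℕ) (hk : 1 ≤ k) (P : NBP n Let) (hP : P.ReadK k)
    (hacc : ∀ w, P.Accepts w ↔ ¬ InL w) :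
    n ≤ 10 ^ 9 * (4 ^ k * k ^ 2 * (Nat.log 2 (Fintype.card P.E) + 1)) ^ 3 := by
  set D := 4 ^ k * k ^ 2 * (Nat.log 2 (Fintype.card P.E) + 1) with hD
  by_contra hcon
  push Not at hcon
  have hk4 : k ≤ 4 ^ k := (Nat.lt_pow_self (by norm_num : 1 < 4)).le
  have hkD : k ≤ D := by
    calc k = k * 1 * 1 := by ring
      _ ≤ 4 ^ k * k ^ 2 * (Nat.log 2 (Fintype.card P.E) + 1) := by
          refine Nat.mul_le_mul (Nat.mul_le_mul hk4 (Nat.one_le_pow _ _ hk)) (by omega)
  have hD1 : 1 ≤ D := hk.trans hkD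
  have hDD : D ≤ D ^ 3 := Nat.le_self_pow (by omega) D
  have hm : 20 * (153 * D) ^ 3 = 71631540 * D ^ 3 := by ring
  have := core n (n / 2) k (153 * D) hk (by omega) (by omega) (by omega) (by rw [hm]; omega) P hP hacc
  rw [← hD] at this
  omega

theorem lower_det (n k : ℕ) (hk : 1 ≤ k) (D : DBP n Let) (hD : D.ReadK k)
    (hout : ∀ w, (InL w → D.Outputs w true) ∧ (¬ InL w → D.Outputs w false)) :
    n ≤ 10 ^ 9 * (4 ^ k * k ^ 2 * (Nat.log 2 (4 * Fintype.card D.V) + 1)) ^ 3 := by
  obtain ⟨P, hE, hP, hacc⟩ := det_to_nondet D k hD false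
  have h := lower n k hk P hP (by
    intro w
    rw [hacc]
    constructor
    · intro h1 h2
      exact Bool.false_ne_true (outputs_unique D w _ _ h1 ((hout w).1 h2))
    · intro h1
      exact (hout w).2 h1)
  have h4 : Fintype.card Let = 4 := rfl
  rw [hE, h4, Nat.mul_comm (Fintype.card D.V)] at h
  exact h

end Pool.Agent.H559R12
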