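import Pool.Agent.H559R12.Defs

set_option autoImplicit false

namespace Pool.Agent.H559R12

open Finset

theorem word_b {n m h : ℕ} (ω : Geo m h) (σ : Fin m → Bool) (i : Fin n) (g : Fin m)
    (hi : (i : ℕ) = mid ω g) : word n ω σ i = Let.b := by
  unfold word
  rw [if_pos ⟨g, hi⟩]

theorem word_a {n m h : ℕ} (ω : Geo m h) (σ : Fin m → Bool) (i : Fin n) (g : Fin m)
    (hm : ∀ g', (i : ℕ) ≠ mid ω g') (hi : (i : ℕ) = (ω g).1) (hg : σ g = true) :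
    word n ω σ i = Let.a := by
  unfold word
  rw [if_neg (by rintro ⟨g', hg'⟩; exact hm g' hg'), if_pos ⟨g, hi, hg⟩]

theorem word_c {n m h : ℕ} (ω : Geo m h) (σ : Fin m → Bool) (i : Fin n) (g : Fin m)
    (hm : ∀ g', (i : ℕ) ≠ mid ω g') (hi : (i : ℕ) = h + (ω g).2) (hg : σ g = false) :
    word n ω σ i = Let.c := by
  unfold word
  rw [if_neg (by rintro ⟨g', hg'⟩; exact hm g' hg'), if_neg, if_pos ⟨g, hi, hg⟩]
  rintro ⟨g', hg', _⟩
  have := (ω g').1.isLt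
  omega

theorem of_word_a {n m h : ℕ} (ω : Geo m h) (σ : Fin m → Bool) (i : Fin n)
    (hi : word n ω σ i = Let.a) : ∃ g, (i : ℕ) = (ω g).1 ∧ σ g = true := by
  unfold word at hi
  split_ifs at hi with h1 h2
  exact h2

theorem of_word_b {n m h : ℕ} (ω : Geo m h) (σ : Fin m → Bool) (i : Fin n)
    (hi : word n ω σ i = Let.b) : ∃ g, (i : ℕ) = mid ω g := by
  unfold word at hi
  split_ifs at hi with h1
  exact h1

theorem of_word_c {n m h : ℕ} (ω : Geo m h) (σ : Fin m → Bool) (i : Fin n)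
    (hi : word n ω σ i = Let.c) : ∃ g, (i : ℕ) = h + (ω g).2 ∧ σ g = false := by
  unfold word at hi
  split_ifs at hi with h1 h2 h3
  exact h3

/-- TASK WORD (1). -/
theorem good_not_InL {n m h : ℕ} (ω : Geo m h) (hω : Good ω) (σ : Fin m → Bool) :
    ¬ InL (word n ω σ) := by
  rintro ⟨i, j, l, hij, hjl, hj, ha, hb, hc⟩
  obtain ⟨g, hg, hσ⟩ := of_word_a ω σ i ha
  obtain ⟨g', hg'⟩ := of_word_b ω σ j hb
  obtain ⟨g'', hg'', hσ''⟩ := of_word_c ω σ l hc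
  by_cases heq : g = g' ∧ g' = g''
  · obtain ⟨rfl, rfl⟩ := heq
    rw [hσ] at hσ''
    exact Bool.noConfusion hσ''
  · exact hω.2.2.2.2 g g' g'' heq (by rw [← hg', hj, hg, hg''])

/-- TASK WORD (2). -/
theorem word_congr {n m h : ℕ} (ω : Geo m h) (σ σ' : Fin m → Bool) (i : Fin n)
    (hi : ∀ g, ((i : ℕ) = (ω g).1 ∨ (i : ℕ) = h + (ω g).2) → σ g = σ' g) :
    word n ω σ i = word n ω σ' i := by
  unfold word
  have h2 : (∃ g, (i : ℕ) = (ω g).1 ∧ σ g = true) ↔ (∃ g, (i : ℕ) = (ω g).1 ∧ σ' g = true) := by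
    apply exists_congr
    intro g
    constructor
    · rintro ⟨h1, h2⟩
      exact ⟨h1, (hi g (Or.inl h1)) ▸ h2⟩
    · rintro ⟨h1, h2⟩
      exact ⟨h1, (hi g (Or.inl h1)).symm ▸ h2⟩
  have h3 : (∃ g, (i : ℕ) = h + (ω g).2 ∧ σ g = false) ↔
      (∃ g, (i : ℕ) = h + (ω g).2 ∧ σ' g = false) := by
    apply exists_congr
    intro g
    constructor
    · rintro ⟨h1, h2⟩
      exact ⟨h1, (hi g (Or.inr h1)) ▸ h2⟩
    · rintro ⟨h1, h2⟩
      exact ⟨h1, (hi g (Or.inr h1)).symm ▸ h2⟩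
  simp only [h2, h3]

/-- TASK WORD (3). -/
theorem mix_InL {n m h : ℕ} (hn : 2 * h ≤ n) (ω : Geo m h) (hω : Good ω) (σ σ' : Fin m → Bool)
    (g : Fin m) (hg : σ g = true) (hg' : σ' g = false) (w : Fin n → Let)
    (h1 : ∀ i : Fin n, (i : ℕ) = (ω g).1 → w i = word n ω σ i)
    (h2 : ∀ i : Fin n, (i : ℕ) = h + (ω g).2 → w i = word n ω σ' i)
    (h3 : ∀ i : Fin n, (i : ℕ) = mid ω g → w i = word n ω σ i ∨ w i = word n ω σ' i) :
    InL w := by
  have hp := (ω g).1.isLt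
  have hq := (ω g).2.isLt
  have e1 := hω.1 g g
  have e2 := hω.2.1 g g
  have hmid : mid ω g = ((ω g).1 + (h + (ω g).2)) / 2 := rfl
  have k1 : ((ω g).1 : ℕ) < mid ω g := by omega
  have k2 : mid ω g < h + (ω g).2 := by omega
  refine ⟨⟨(ω g).1, by omega⟩, ⟨mid ω g, by omega⟩, ⟨h + (ω g).2, by omega⟩, ?_, ?_, ?_, ?_, ?_, ?_⟩
  · exact k1
  · exact k2
  · exact hmid
  · rw [h1 _ rfl]
    exact word_a ω σ _ g (fun g' => (hω.1 g' g).symm) rfl hg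
  · rcases h3 ⟨mid ω g, by omega⟩ rfl with h | h
    · rw [h]; exact word_b ω σ _ g rfl
    · rw [h]; exact word_b ω σ' _ g rfl
  · rw [h2 _ rfl]
    exact word_c ω σ' _ g (fun g' => (hω.2.1 g' g).symm) rfl hg'

end Pool.Agent.H559R12
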